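import Pool.Agent.Helper80.KP.Dom

/-!
Equitable list colouring (MP_c0e710_co): numbers.
-/

open Classical

namespace Pool.Agent.Helper80.KP

open Finset Relation

variable {V C : Type} [Fintype V] [Fintype C]
variable {G : SimpleGraph V} {L : V → Finset C} {q k a b R m : ℕ} {f g : V → C} {γ : C}

noncomputable def VR (G : SimpleGraph V) (L : V → Finset C) (f : V → C) (γ : C) : Finset V :=
  univ.filter fun v => f v ∈ RR G L f γ
noncomputable def VM (G : SimpleGraph V) (L : V → Finset C) (q : ℕ) (f : V → C) (γ : C) : Finset V :=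
  univ.filter fun v => f v ∉ AA G L q f ∧ f v ∉ RR G L f γ
noncomputable def VA (G : SimpleGraph V) (L : V → Finset C) (q : ℕ) (f : V → C) : Finset V :=
  univ.filter fun v => f v ∈ AA G L q f

/-- neighbours of `y` of colour `c` -/
noncomputable def Nc (G : SimpleGraph V) (f : V → C) (y : V) (c : C) : Finset V :=
  univ.filter fun w => G.Adj y w ∧ f w = c
/-- neighbours of `y` in the classes of `R` -/
noncomputable def nR (G : SimpleGraph V) (L : V → Finset C) (f : V → C) (γ : C) (y : V) : Finset V :=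
  univ.filter fun w => G.Adj y w ∧ f w ∈ RR G L f γ
noncomputable def nM (G : SimpleGraph V) (L : V → Finset C) (q : ℕ) (f : V → C) (γ : C) (y : V) :
    Finset V := univ.filter fun w => G.Adj y w ∧ f w ∉ AA G L q f ∧ f w ∉ RR G L f γ
/-- full classes of `A` -/
noncomputable def Fl (G : SimpleGraph V) (L : V → Finset C) (q : ℕ) (f : V → C) : Finset C :=
  (AA G L q f).filter fun c => ¬ Hole q f c

theorem mem_VR {v : V} : v ∈ VR G L f γ ↔ f v ∈ RR G L f γ := by simp [VR]
theorem mem_VM {v : V} : v ∈ VM G L q f γ ↔ f v ∉ AA G L q f ∧ f v ∉ RR G L f γ := by simp [VM]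
theorem mem_VA {v : V} : v ∈ VA G L q f ↔ f v ∈ AA G L q f := by simp [VA]
theorem mem_Nc {y w : V} {c : C} : w ∈ Nc G f y c ↔ G.Adj y w ∧ f w = c := by simp [Nc]
theorem mem_nR {y w : V} : w ∈ nR G L f γ y ↔ G.Adj y w ∧ f w ∈ RR G L f γ := by simp [nR]
theorem mem_nM {y w : V} : w ∈ nM G L q f γ y ↔
    G.Adj y w ∧ f w ∉ AA G L q f ∧ f w ∉ RR G L f γ := by simp [nM]
theorem mem_Fl {c : C} : c ∈ Fl G L q f ↔ c ∈ AA G L q f ∧ ¬ Hole q f c := by simp [Fl]

/-- the numbers -/
structure Num (G : SimpleGraph V) (L : V → Finset C) (q k : ℕ) (f : V → C) (γ : C)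
    (a b R m : ℕ) : Prop where
  hb : (univ \ AA G L q f).card = b
  hR : (RR G L f γ).card = R
  hm : b = R + m
  hk : k = a + b
  R1 : 1 ≤ R
  a1 : 1 ≤ a
  cA : (VA G L q f).card + 1 ≤ a * q
  cR : (VR G L f γ).card = R * q + 1
  cM : (VM G L q f γ).card = m * q

theorem card_filter_cls (f : V → C) (S : Finset C) :
    (univ.filter fun v => f v ∈ S).card = ∑ c ∈ S, (cls f c).card := by
  rw [card_eq_sum_card_fiberwise (s := univ.filter fun v => f v ∈ S) (f := f) (t := S)
    (fun v hv => (mem_filter.1 hv).2)]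
  refine sum_congr rfl fun c hc => ?_
  congr 1
  ext v
  rw [mem_filter, mem_filter, mem_cls]
  exact ⟨fun h => h.2, fun h => ⟨⟨mem_univ _, h ▸ hc⟩, h⟩⟩

namespace Extr

variable (E : Extr G L q k f γ)
include E

theorem RR_sub : RR G L f γ ⊆ univ \ AA G L q f := fun _ hc =>
  mem_sdiff.2 ⟨mem_univ _, E.RR_not hc⟩

theorem card_B {c : C} (hc : c ∉ AA G L q f) :
    (cls f c).card = q + (if c = γ then 1 else 0) := by
  have h1 : q ≤ (cls f c).card := by
    by_contra h
    exact hc (AA_of_hole (lt_of_not_ge h))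
  by_cases h2 : c = γ
  · rw [if_pos h2, h2]
    exact E.ne.2.1
  · rw [if_neg h2]
    have := E.ne.2.2 c h2
    omega

theorem exists_num : ∃ a b R m, Num G L q k f γ a b R m := by
  obtain ⟨b, hb⟩ : ∃ b, b = (univ \ AA G L q f).card := ⟨_, rfl⟩
  obtain ⟨R, hR⟩ : ∃ R, R = (RR G L f γ).card := ⟨_, rfl⟩
  have hγR : γ ∈ RR G L f γ := mem_RR.2 .refl
  have hRb : R ≤ b := by
    rw [hb, hR]
    exact card_le_card E.RR_sub
  have sR : (VR G L f γ).card = R * q + 1 := by
    have h1 : (VR G L f γ).card = ∑ c ∈ RR G L f γ, (cls f c).card := card_filter_cls f _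
    rw [h1, sum_congr rfl fun c hc => E.card_B (E.RR_not hc), sum_add_distrib, sum_const,
      smul_eq_mul, ← hR, sum_ite_eq' (RR G L f γ) γ fun _ => 1, if_pos hγR]
  have sM : (VM G L q f γ).card = (b - R) * q := by
    have h0 : VM G L q f γ = univ.filter fun v => f v ∈ (univ \ AA G L q f) \ RR G L f γ := by
      ext v
      simp [VM]
    have h1 : (VM G L q f γ).card = ∑ c ∈ (univ \ AA G L q f) \ RR G L f γ, (cls f c).card := by
      rw [h0]
      exact card_filter_cls f _
    rw [h1, sum_congr rfl fun c hc => E.card_B (mem_sdiff.1 (mem_sdiff.1 hc).1).2,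
      sum_add_distrib, sum_const, smul_eq_mul, card_sdiff_of_subset E.RR_sub, ← hR, ← hb]
    have h2 : γ ∉ (univ \ AA G L q f) \ RR G L f γ := fun h => (mem_sdiff.1 h).2 hγR
    rw [sum_ite_eq' _ γ fun _ => 1, if_neg h2, add_zero]
  have sB : (univ.filter fun v => f v ∈ univ \ AA G L q f).card = b * q + 1 := by
    rw [card_filter_cls f, sum_congr rfl fun c hc => E.card_B (mem_sdiff.1 hc).2,
      sum_add_distrib, sum_const, smul_eq_mul, ← hb, sum_ite_eq' _ γ fun _ => 1,
      if_pos (E.RR_sub hγR)]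
  have sT : (VA G L q f).card + (b * q + 1) = Fintype.card V := by
    rw [← sB, ← card_univ, ← card_filter_add_card_filter_not (s := (univ : Finset V))
      (fun v => f v ∈ AA G L q f)]
    congr 2
    ext v
    simp
  have hq := E.tot
  have hbk : b < k := by
    by_contra h
    push Not at h
    have := Nat.mul_le_mul_right q h
    omega
  have hγ1 : 1 ≤ R := by
    rw [hR]
    exact card_pos.2 ⟨γ, hγR⟩
  refine ⟨k - b, b, R, b - R, hb.symm, hR.symm, by omega, by omega, hγ1, by omega, ?_, sR, sM⟩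
  have : (k - b) * q + b * q = k * q := by
    rw [← add_mul]
    congr 1
    omega
  omega

omit E in
/-- a vertex outside of `A` has a neighbour in each class of `A` in its list -/
theorem nbA {y : V} (hy : f y ∉ AA G L q f) {c : C} (hc : c ∈ L y) (hcA : c ∈ AA G L q f) :
    (Nc G f y c).Nonempty := by
  by_contra h
  rw [not_nonempty_iff_eq_empty] at h
  refine hy (AA_of_arc (d := c) ⟨y, rfl, hc, fun h2 => hy (h2 ▸ hcA), fun w hw h2 => ?_⟩ hcA)
  have : w ∈ Nc G f y c := mem_Nc.2 ⟨hw, h2⟩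
  rw [h] at this
  simp at this

omit E in
theorem nbM {y : V} (hy : f y ∈ RR G L f γ) {c : C} (hc : c ∈ L y) (hcR : c ∉ RR G L f γ) :
    (Nc G f y c).Nonempty := by
  by_contra h
  rw [not_nonempty_iff_eq_empty] at h
  refine hcR (RR_of_arc hy (d := c) ⟨y, rfl, hc, fun h2 => hcR (h2 ▸ hy), fun w hw h2 => ?_⟩)
  have : w ∈ Nc G f y c := mem_Nc.2 ⟨hw, h2⟩
  rw [h] at this
  simp at this

omit E in
theorem card_nA (y : V) : (nA G L q f y).card = ∑ c ∈ AA G L q f, (Nc G f y c).card := by
  rw [card_eq_sum_card_fiberwise (s := nA G L q f y) (f := f) (t := AA G L q f)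
    (fun v hv => (mem_nA.1 hv).2)]
  refine sum_congr rfl fun c hc => ?_
  congr 1
  ext v
  rw [mem_filter, mem_nA, mem_Nc]
  exact ⟨fun h => ⟨h.1.1, h.2⟩, fun h => ⟨⟨h.1, h.2 ▸ hc⟩, h.2⟩⟩

theorem card_nB (y : V) : (nB G L q f y).card = (nR G L f γ y).card + (nM G L q f γ y).card := by
  rw [← card_filter_add_card_filter_not (s := nB G L q f y) (fun w => f w ∈ RR G L f γ)]
  congr 2
  · ext w
    rw [mem_filter, mem_nB, mem_nR]
    exact ⟨fun h => ⟨h.1.1, h.2⟩, fun h => ⟨⟨h.1, E.RR_not h.2⟩, h.2⟩⟩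
  · ext w
    rw [mem_filter, mem_nB, mem_nM]
    exact ⟨fun h => ⟨h.1.1, h.1.2, h.2⟩, fun h => ⟨⟨h.1, h.2.1⟩, h.2.2⟩⟩

variable (N : Num G L q k f γ a b R m)
include N

theorem listA (y : V) : a ≤ (L y ∩ AA G L q f).card := by
  have h1 : (L y \ AA G L q f).card + (L y ∩ AA G L q f).card = k := by
    rw [card_sdiff_add_card_inter, E.lst]
  have h2 : (L y \ AA G L q f).card ≤ b := by
    rw [← N.hb]
    exact card_le_card (sdiff_subset_sdiff (subset_univ _) subset_rfl)
  have := N.hk
  omega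

/-- a vertex of `R` has few neighbours in `A` and `R` -/
theorem excess {y : V} (hy : f y ∈ RR G L f γ) :
    (nA G L q f y).card + (nR G L f γ y).card + 1 ≤ (L y ∩ AA G L q f).card + R := by
  have h1 := card_nA_nB (G := G) (L := L) (q := q) (f := f) y
  have h2 := E.card_nB y
  have h3 := E.deg y
  have h4 : (L y ∩ AA G L q f).card + ((L y \ AA G L q f) ∩ RR G L f γ).card +
      ((L y \ AA G L q f) \ RR G L f γ).card = k := by
    have e1 : ((L y \ AA G L q f) \ RR G L f γ).card + ((L y \ AA G L q f) ∩ RR G L f γ).card =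
        (L y \ AA G L q f).card := card_sdiff_add_card_inter _ _
    have e2 : (L y \ AA G L q f).card + (L y ∩ AA G L q f).card = k := by
      rw [card_sdiff_add_card_inter, E.lst]
    omega
  have h5 : ((L y \ AA G L q f) ∩ RR G L f γ).card ≤ R := by
    rw [← N.hR]
    exact card_le_card inter_subset_right
  have h6 : ((L y \ AA G L q f) \ RR G L f γ).card ≤ (nM G L q f γ y).card := by
    have h7 : (L y \ AA G L q f) \ RR G L f γ ⊆ (nM G L q f γ y).image f := by
      intro c hc
      rw [mem_sdiff, mem_sdiff] at hc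
      obtain ⟨w, hw⟩ := nbM hy hc.1.1 hc.2
      rw [mem_Nc] at hw
      refine mem_image.2 ⟨w, mem_nM.2 ⟨hw.1, ?_, ?_⟩, hw.2⟩
      · rw [hw.2]
        exact hc.1.2
      · rw [hw.2]
        exact hc.2
    exact (card_le_card h7).trans card_image_le
  omega

theorem card_Fl : (Fl G L q f).card + 1 ≤ a := by
  have h1 : (Fl G L q f).card * q ≤ (VA G L q f).card := by
    have h2 : (VA G L q f).card = ∑ c ∈ AA G L q f, (cls f c).card := card_filter_cls f _
    rw [h2]
    calc (Fl G L q f).card * q = ∑ c ∈ Fl G L q f, q := by rw [sum_const, smul_eq_mul]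
      _ ≤ ∑ c ∈ Fl G L q f, (cls f c).card := by
        refine sum_le_sum fun c hc => ?_
        have := (mem_Fl.1 hc).2
        exact le_of_not_gt this
      _ ≤ _ := sum_le_sum_of_subset (filter_subset _ _)
  have h2 := N.cA
  by_contra h
  push Not at h
  have h3 := Nat.mul_le_mul_right q (show a ≤ (Fl G L q f).card by omega)
  omega

theorem nB_le (z : V) : (nB G L q f z).card ≤ b + (TT G L q f z).card := by
  have h1 := card_nB_le E z
  have h2 := E.listA N z
  have := N.hk
  omega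

/-- witnesses -/
theorem nB_om {c : C} {w : V} (hc : c ∈ AA G L q f) (h : f w ∈ UU G L q f c)
    (hw : Mv G L f w c) : (nB G L q f w).card ≤ b + (cl G L q f c (f w)).card := by
  have h1 := E.nB_le N w
  have h2 : TT G L q f w ⊆ insert c ((cl G L q f c (f w)).erase (f w)) := by
    intro X hX
    rw [mem_TT] at hX
    rw [mem_insert, mem_erase]
    by_cases h3 : X = c
    · exact Or.inl h3
    · exact Or.inr ⟨hX.2.2.1, mem_cl.2 (ReflTransGen.single ⟨⟨w, rfl, hX.2⟩, hX.1, h3⟩)⟩
  have h3 : f w ∈ cl G L q f c (f w) := mem_cl.2 .refl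
  have h4 := card_le_card h2
  have h5 := card_insert_le c ((cl G L q f c (f w)).erase (f w))
  have h6 := card_erase_add_one h3
  omega

omit N in
/-- a neighbour of a witness is not solo -/
theorem nonsolo {c : C} {y w : V} (hy : f y ∈ RR G L f γ) (hc : c ∈ AA G L q f)
    (h : f w ∈ UU G L q f c) (hw : Mv G L f w c) (hyw : G.Adj y w) :
    (if f w ∈ L y then 1 else 0) + 1 ≤ (Nc G f y (f w)).card := by
  have hmem : w ∈ Nc G f y (f w) := mem_Nc.2 ⟨hyw, rfl⟩
  by_cases h1 : f w ∈ L y
  · rw [if_pos h1]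
    by_contra h2
    have h3 : Solo G L f y w := by
      refine ⟨hyw, h1, fun u hu hfu => ?_⟩
      have h4 : (Nc G f y (f w)).card ≤ 1 := by omega
      exact card_le_one.1 h4 u (mem_Nc.2 ⟨hu, hfu⟩) w hmem
    have h4 := E.T2a hy (mem_UU.1 h).1 h3 hc hw
    exact UU_asymm hc h h4
  · rw [if_neg h1]
    have := card_pos.2 ⟨w, hmem⟩
    omega

end Extr

end Pool.Agent.Helper80.KP
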