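import Pool.Agent.Helper80.KP.Swap

/-!
Equitable list colouring (MP_c0e710_co): blocked vertices, the order of the classes, minimal closed sets.
-/

open Classical

namespace Pool.Agent.Helper80.KP

open Finset Relation

variable {V C : Type} [Fintype V] [Fintype C]
variable {G : SimpleGraph V} {L : V → Finset C} {q k : ℕ} {f g : V → C} {γ : C}

/-- `y` is blocked at the class `c` -/
def Blk (G : SimpleGraph V) (L : V → Finset C) (q : ℕ) (f : V → C) (y : V) (c : C) : Prop :=
  ∃ X ∈ UU G L q f c, ∀ w, RA G L q f c X (f w) → Mv G L f w c → G.Adj y w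

theorem Same.UU (S : Same G L q f g) {c X : C} (h : X ∈ UU G L q g c) : X ∈ UU G L q f c := by
  rw [mem_UU] at h ⊢
  rw [S.eq] at h
  exact ⟨h.1, h.2.1, fun h' hh hr => h.2.2 h' ((S.hole (AA_of_hole hh)).2 hh) (S.RA h.1 hr)⟩

theorem Same.TT (S : Same G L q f g) {z : V} (hz : f z ∈ AA G L q f) :
    TT G L q g z = TT G L q f z := by
  ext X
  rw [mem_TT, mem_TT, S.eq]
  exact and_congr_right fun hX => S.mv hz hX

theorem Extr.S2 (E : Extr G L q k f γ) {y1 y2 z : V} (hy : f y1 ∈ RR G L f γ)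
    (hz : f z ∈ AA G L q f) (h1 : Solo G L f y1 z) (hT : TT G L q f z = ∅) (h2 : Solo G L f y2 z)
    (hy2 : f y2 ∉ AA G L q f) (hne : y1 ≠ y2) (hb : ¬ Blk G L q f y1 (f z)) : G.Adj y1 y2 := by
  obtain ⟨g, E', S, hg⟩ := E.rebase hy
  have hz' : g z = f z := S.of_mem hz
  refine E'.S2_base (y1 := y1) (y2 := y2) (z := z) rfl ?_ ((S.solo hz).2 h1) ?_
    ((S.solo hz).2 h2) ?_ hne ?_
  · rw [S.eq, hz']
    exact hz
  · rw [S.TT hz]
    exact hT
  · rw [S.eq]
    intro h
    have := (S.cls _ h y2).1 rfl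
    exact hy2 (this ▸ h)
  · intro X hX
    rw [hz'] at hX
    have hX' := S.UU hX
    have h3 : ¬ ∀ w, RA G L q f (f z) X (f w) → Mv G L f w (f z) → G.Adj y1 w :=
      fun h => hb ⟨X, hX', h⟩
    push Not at h3
    obtain ⟨w, w1, w2, w3⟩ := h3
    have hXA := (mem_UU.1 hX').1
    have hwA : f w ∈ AA G L q f := RA_mem w1 hXA
    have hw' : g w = f w := S.of_mem hwA
    refine ⟨w, ?_, ?_, w3⟩
    · rw [hz', hw']
      exact S.RA hXA w1
    · rw [hz']
      exact (S.mv hwA hz).2 w2

/-- a solo neighbour of a movable vertex is blocked -/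
theorem Extr.blk (E : Extr G L q k f γ) {y z : V} {X : C} (hy : f y ∈ RR G L f γ)
    (hz : f z ∈ AA G L q f) (hs : Solo G L f y z) (hX : X ∈ TT G L q f z) :
    X ∈ UU G L q f (f z) ∧ ∀ w, RA G L q f (f z) X (f w) → Mv G L f w (f z) → G.Adj y w := by
  rw [mem_TT] at hX
  exact ⟨E.T2a hy hz hs hX.1 hX.2, fun w h1 h2 => E.T2b hy hz hs hX.1 hX.2 h1 h2⟩

/-! ### the order of the classes -/

theorem UU_asymm {c X : C} (hc : c ∈ AA G L q f) (hX : X ∈ UU G L q f c) : c ∉ UU G L q f X := by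
  intro h
  obtain ⟨h', hh, hr⟩ := reach_avoid hc hX
  exact (mem_UU.1 h).2.2 h' hh hr

theorem UU_trans {c X Y : C} (hc : c ∈ AA G L q f) (hX : X ∈ UU G L q f Y)
    (hY : Y ∈ UU G L q f c) : X ∈ UU G L q f c := by
  refine mem_UU.2 ⟨(mem_UU.1 hX).1, ?_, fun h hh hr => ?_⟩
  · rintro rfl
    exact UU_asymm hc hY hX
  · have key : ∀ e, RA G L q f c X e → RA G L q f Y X e ∨ RA G L q f c Y e := by
      intro e he
      induction he with
      | refl => exact Or.inl .refl
      | @tail a b h1 h2 ih =>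
        rcases ih with ih | ih
        · by_cases hb : b = Y
          · rw [hb]
            exact Or.inr .refl
          · exact Or.inl (ih.tail ⟨h2.1, h2.2.1, hb⟩)
        · exact Or.inr (ih.tail h2)
    rcases key h hr with h1 | h1
    · exact (mem_UU.1 hX).2.2 h hh h1
    · exact (mem_UU.1 hY).2.2 h hh h1

theorem UU_chain {c c' X : C} (hc : c ∈ AA G L q f) (hc' : c' ∈ AA G L q f) (hne : c ≠ c')
    (h1 : X ∈ UU G L q f c) (h2 : X ∈ UU G L q f c') : c ∈ UU G L q f c' ∨ c' ∈ UU G L q f c := by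
  by_contra hcon
  push Not at hcon
  obtain ⟨n1, n2⟩ := hcon
  rw [mem_UU] at n1 n2
  push Not at n1 n2
  obtain ⟨k1, hk1, r1⟩ := n1 hc hne
  obtain ⟨k2, hk2, r2⟩ := n2 hc' hne.symm
  obtain ⟨e, he, ha⟩ := UU_reach h1
  have key : ∀ e, RA G L q f c X e → RA G L q f c' X e ∨ RA G L q f c X c' := by
    intro e he
    induction he with
    | refl => exact Or.inl .refl
    | @tail a b h3 h4 ih =>
      rcases ih with ih | ih
      · by_cases hb : b = c'
        · exact Or.inr (hb ▸ (h3.tail h4))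
        · exact Or.inl (ih.tail ⟨h4.1, h4.2.1, hb⟩)
      · exact Or.inr ih
  rcases key e he with h3 | h3
  · exact (mem_UU.1 h2).2.2 k1 hk1 ((h3.tail ⟨ha, hc, hne⟩).trans r1)
  · exact (mem_UU.1 h1).2.2 k2 hk2 (h3.trans r2)

theorem UU_not_hole {c X : C} (h : X ∈ UU G L q f c) : ¬ Hole q f X := fun hh =>
  (mem_UU.1 h).2.2 X hh .refl

/-! ### minimal closed sets -/

/-- the classes reachable from `X` avoiding `c` -/
noncomputable def cl (G : SimpleGraph V) (L : V → Finset C) (q : ℕ) (f : V → C) (c X : C) :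
    Finset C := univ.filter fun e => RA G L q f c X e

theorem mem_cl {c X e : C} : e ∈ cl G L q f c X ↔ RA G L q f c X e := by simp [cl]

theorem cl_sub {c X e : C} (h : RA G L q f c X e) : cl G L q f c e ⊆ cl G L q f c X := by
  intro e' he'
  rw [mem_cl] at he' ⊢
  exact h.trans he'

theorem cl_sub_UU {c X : C} (h : X ∈ UU G L q f c) : cl G L q f c X ⊆ UU G L q f c := by
  intro e he
  exact UU_of_RA h (mem_cl.1 he)

theorem exists_mn (G : SimpleGraph V) (L : V → Finset C) (q : ℕ) (f : V → C) (c X : C) :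
    ∃ e, RA G L q f c X e ∧ ∀ e', RA G L q f c e e' → cl G L q f c e' = cl G L q f c e := by
  have hne : (cl G L q f c X).Nonempty := ⟨X, mem_cl.2 .refl⟩
  obtain ⟨e, he, hmin⟩ := exists_min_image (cl G L q f c X) (fun e => (cl G L q f c e).card) hne
  refine ⟨e, mem_cl.1 he, fun e' he' => ?_⟩
  exact eq_of_subset_of_card_le (cl_sub he') (hmin e' (mem_cl.2 ((mem_cl.1 he).trans he')))

noncomputable def mn (G : SimpleGraph V) (L : V → Finset C) (q : ℕ) (f : V → C) (c X : C) : C :=
  (exists_mn G L q f c X).choose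

theorem mn_spec (c X : C) : RA G L q f c X (mn G L q f c X) ∧ ∀ e',
    RA G L q f c (mn G L q f c X) e' → cl G L q f c e' = cl G L q f c (mn G L q f c X) :=
  (exists_mn G L q f c X).choose_spec

/-- an element of `K` with an arc to `c` -/
noncomputable def pk (G : SimpleGraph V) (L : V → Finset C) (f : V → C) (c : C) (K : Finset C) : C :=
  if h : ∃ e ∈ K, Arc G L f e c then h.choose else c

/-- the representative of a minimal closed set below `X` -/
noncomputable def rh (G : SimpleGraph V) (L : V → Finset C) (q : ℕ) (f : V → C) (c X : C) : C :=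
  pk G L f c (cl G L q f c (mn G L q f c X))

theorem rh_spec {c X : C} (hX : X ∈ UU G L q f c) :
    RA G L q f c X (rh G L q f c X) ∧ Arc G L f (rh G L q f c X) c ∧
      cl G L q f c (rh G L q f c X) = cl G L q f c (mn G L q f c X) := by
  obtain ⟨h1, h2⟩ := mn_spec (G := G) (L := L) (q := q) (f := f) c X
  obtain ⟨e, he, ha⟩ := UU_reach (UU_of_RA hX h1)
  have h : ∃ e ∈ cl G L q f c (mn G L q f c X), Arc G L f e c := ⟨e, mem_cl.2 he, ha⟩
  have e1 : rh G L q f c X = h.choose := by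
    unfold rh pk
    rw [dif_pos h]
  obtain ⟨h3, h4⟩ := h.choose_spec
  rw [e1]
  have h5 := mem_cl.1 h3
  exact ⟨h1.trans h5, h4, h2 _ h5⟩

theorem rh_mem {c X : C} (hX : X ∈ UU G L q f c) : rh G L q f c X ∈ UU G L q f c :=
  UU_of_RA hX (rh_spec hX).1

theorem rh_eq {c X X' : C} (hX : X ∈ UU G L q f c)
    (h : RA G L q f c (rh G L q f c X) X') : rh G L q f c X' = rh G L q f c X := by
  obtain ⟨h1, h2, h3⟩ := rh_spec hX
  obtain ⟨m1, m2⟩ := mn_spec (G := G) (L := L) (q := q) (f := f) c X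
  have h4 : RA G L q f c (mn G L q f c X) X' := by
    have : X' ∈ cl G L q f c (mn G L q f c X) := by
      rw [← h3]
      exact mem_cl.2 h
    exact mem_cl.1 this
  have h5 := m2 X' h4
  obtain ⟨n1, n2⟩ := mn_spec (G := G) (L := L) (q := q) (f := f) c X'
  have h6 : cl G L q f c (mn G L q f c X') = cl G L q f c (mn G L q f c X) := m2 _ (h4.trans n1)
  unfold rh
  rw [h6]

/-- two minimal closed sets (of two classes) with the same representative -/
theorem rh_inj {c c' e : C} (hc : c ∈ AA G L q f) (hc' : c' ∈ AA G L q f)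
    (h : e ∈ UU G L q f c) (h' : e ∈ UU G L q f c') (ha : Arc G L f e c) (ha' : Arc G L f e c') :
    c = c' := by
  by_contra hne
  have h1 : c' ∈ UU G L q f c := UU_of_RA h (ReflTransGen.single ⟨ha', hc', fun h => hne h.symm⟩)
  have h2 : c ∈ UU G L q f c' := UU_of_RA h' (ReflTransGen.single ⟨ha, hc, hne⟩)
  exact UU_asymm hc h1 h2

end Pool.Agent.Helper80.KP
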