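import Pool.Agent.Helper80.KP.M1

/-!
Equitable list colouring (MP_c0e710_co): the induction.
-/

open Classical

namespace Pool.Agent.Helper80.KP

open Finset

variable {C : Type} [Fintype C]

theorem no_extr {V : Type} [Fintype V] {G : SimpleGraph V} {L : V → Finset C} {q k : ℕ} {f : V → C}
    {γ : C} (E : Extr G L q k f γ) (hk : k ≤ 9) : False := by
  obtain ⟨a, b, R, m, N⟩ := E.exists_num
  by_cases h : a ≤ R + 1
  · exact E.m2_false N h hk
  · obtain ⟨ω, W⟩ := E.exists_wit
    exact E.m1_false W N (by omega) hk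

theorem of_NE {V : Type} [Fintype V] {G : SimpleGraph V} {L : V → Finset C} {q k : ℕ} {f : V → C}
    {γ : C} (hf : NE G L q f γ) (hd : ∀ v, G.degree v + 1 ≤ k) (hL : ∀ v, (L v).card = k)
    (ht : Fintype.card V ≤ k * q) (hk : k ≤ 9) :
    ∃ g, Proper G L g ∧ ∀ c, (cls g c).card ≤ q := by
  by_contra hno
  push Not at hno
  obtain ⟨p, hp, hmax⟩ := exists_max_image
    ((univ : Finset ((V → C) × C)).filter fun p => NE G L q p.1 p.2)
    (fun p => (AA G L q p.1).card) ⟨(f, γ), mem_filter.2 ⟨mem_univ _, hf⟩⟩
  rw [mem_filter] at hp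
  exact no_extr (G := G) (L := L) (q := q) (k := k) (f := p.1) (γ := p.2)
    ⟨hp.2, hno, fun g δ h => hmax (g, δ) (mem_filter.2 ⟨mem_univ _, h⟩), hd, hL, ht⟩ hk

theorem main (k q : ℕ) (hk : k ≤ 9) : ∀ (n : ℕ) (V : Type) [Fintype V] (G : SimpleGraph V)
    (L : V → Finset C), Fintype.card V = n → (∀ v, G.degree v + 1 ≤ k) → (∀ v, (L v).card = k) →
    Fintype.card V ≤ k * q → ∃ f, Proper G L f ∧ ∀ c, (cls f c).card ≤ q := by
  intro n
  induction n with
  | zero =>
    intro V _ G L hn _ _ _
    have he : IsEmpty V := Fintype.card_eq_zero_iff.1 hn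
    refine ⟨fun v => he.elim v, ⟨fun v => he.elim v, fun v => he.elim v⟩, fun c => ?_⟩
    have : cls (fun v : V => (he.elim v : C)) c = ∅ := by
      rw [eq_empty_iff_forall_notMem]
      exact fun v => he.elim v
    rw [this, card_empty]
    exact Nat.zero_le _
  | succ n ih =>
    intro V _ G L hn hd hL ht
    have hne : Nonempty V := Fintype.card_pos_iff.1 (by omega)
    obtain ⟨x⟩ := hne
    have hc' : Fintype.card {v : V // v ≠ x} = n := by
      rw [Fintype.card_subtype_compl, Fintype.card_subtype_eq]
      omega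
    obtain ⟨f', hf', hs'⟩ := ih {v : V // v ≠ x} (G.comap Subtype.val) (fun v => L v.1) hc'
      (fun v => by
        have h1 : ∀ inst : Fintype ((G.comap Subtype.val).neighborSet v),
            @SimpleGraph.degree _ (G.comap Subtype.val) v inst ≤ G.degree v.1 := by
          intro inst
          rw [← SimpleGraph.card_neighborFinset_eq_degree,
            ← SimpleGraph.card_neighborFinset_eq_degree]
          refine card_le_card_of_injOn (fun b => b.1) ?_ ?_
          · intro b hb
            rw [mem_coe, SimpleGraph.mem_neighborFinset] at hb ⊢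
            exact hb
          · intro b _ c _ h
            exact Subtype.ext h
        exact (Nat.add_le_add_right (h1 _) 1).trans (hd v.1)) (fun v => hL v.1) (by omega)
    -- a colour for `x`
    obtain ⟨d, hdL, hdn⟩ : ∃ d ∈ L x, ∀ (w : V) (h : w ≠ x), G.Adj x w → f' ⟨w, h⟩ ≠ d := by
      have h1 : (((univ : Finset {v : V // v ≠ x}).filter fun v => G.Adj x v.1).image f').card <
          (L x).card := by
        rw [hL]
        refine lt_of_le_of_lt card_image_le ?_
        have h2 : ((univ : Finset {v : V // v ≠ x}).filter fun v => G.Adj x v.1).card ≤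
            G.degree x := by
          rw [← SimpleGraph.card_neighborFinset_eq_degree]
          refine card_le_card_of_injOn (fun b => b.1) ?_ ?_
          · intro b hb
            rw [mem_coe, mem_filter] at hb
            rw [mem_coe, SimpleGraph.mem_neighborFinset]
            exact hb.2
          · intro b _ c _ h
            exact Subtype.ext h
        have := hd x
        omega
      obtain ⟨d, hd1, hd2⟩ := exists_mem_notMem_of_card_lt_card h1
      refine ⟨d, hd1, fun w h hw he => hd2 ?_⟩
      exact mem_image.2 ⟨⟨w, h⟩, mem_filter.2 ⟨mem_univ _, hw⟩, he⟩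
    obtain ⟨f, hf⟩ : ∃ f : V → C, f = fun v => if h : v ≠ x then f' ⟨v, h⟩ else d := ⟨_, rfl⟩
    have fx : f x = d := by
      rw [hf]
      simp
    have fo : ∀ (v : V) (h : v ≠ x), f v = f' ⟨v, h⟩ := by
      intro v h
      rw [hf]
      simp [h]
    have hp : Proper G L f := by
      refine ⟨fun v => ?_, fun v w hvw => ?_⟩
      · by_cases h : v = x
        · rw [h, fx]
          exact hdL
        · rw [fo v h]
          exact hf'.1 ⟨v, h⟩
      · by_cases h : v = x
        · have hw : w ≠ x := fun h2 => hvw.ne (h.trans h2.symm)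
          rw [h, fx, fo w hw]
          exact (hdn w hw (h ▸ hvw)).symm
        · by_cases h2 : w = x
          · rw [h2, fx, fo v h]
            exact hdn v h (h2 ▸ hvw.symm)
          · rw [fo v h, fo w h2]
            exact hf'.2 ⟨v, h⟩ ⟨w, h2⟩ hvw
    have hcl : ∀ c, (cls f c).card = (cls f' c).card + (if c = d then 1 else 0) := by
      intro c
      have h1 : ((cls f c).erase x).card = (cls f' c).card := by
        symm
        refine card_bij (fun v _ => v.1) ?_ ?_ ?_
        · intro v hv
          rw [mem_erase, mem_cls, fo v.1 v.2]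
          exact ⟨v.2, mem_cls.1 hv⟩
        · intro v _ w _ h
          exact Subtype.ext h
        · intro v hv
          rw [mem_erase, mem_cls] at hv
          refine ⟨⟨v, hv.1⟩, ?_, rfl⟩
          rw [mem_cls, ← fo v hv.1]
          exact hv.2
      by_cases h : c = d
      · rw [if_pos h, ← h1, card_erase_add_one]
        rw [mem_cls, fx, h]
      · rw [if_neg h, ← h1, erase_eq_of_notMem, add_zero]
        rw [mem_cls, fx]
        exact fun h2 => h h2.symm
    by_cases hq : (cls f d).card ≤ q
    · refine ⟨f, hp, fun c => ?_⟩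
      by_cases h : c = d
      · rw [h]
        exact hq
      · rw [hcl c, if_neg h]
        exact hs' c
    · refine of_NE (γ := d) ⟨hp, ?_, fun c h => ?_⟩ hd hL ht hk
      · have h1 := hcl d
        rw [if_pos rfl] at h1
        have h2 := hs' d
        omega
      · rw [hcl c, if_neg h]
        exact hs' c

/-- any palette -/
theorem main' {V : Type} [Fintype V] (G : SimpleGraph V) {k q : ℕ} (hk : k ≤ 9)
    (hd : ∀ v, G.degree v + 1 ≤ k) (hq : Fintype.card V ≤ k * q) (D : Type) (L : V → Finset D)
    (hL : ∀ v, (L v).card = k) : ∃ f : V → D, (∀ v, f v ∈ L v) ∧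
      (∀ u v, G.Adj u v → f u ≠ f v) ∧ ∀ c, (univ.filter fun v => f v = c).card ≤ q := by
  obtain ⟨S, hS⟩ : ∃ S : Finset D, S = univ.biUnion L := ⟨_, rfl⟩
  have hsub : ∀ v, L v ⊆ S := fun v => hS ▸ subset_biUnion_of_mem L (mem_univ v)
  obtain ⟨f, h1, h2⟩ := main (C := {c // c ∈ S}) k q hk _ V G
    (fun v => (univ : Finset {c // c ∈ S}).filter fun c => c.1 ∈ L v) rfl hd (fun v => by
      rw [← hL v]
      refine card_bij (fun c _ => c.1) ?_ ?_ ?_
      · intro c hc
        exact (mem_filter.1 hc).2
      · intro c _ c' _ h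
        exact Subtype.ext h
      · intro c hc
        exact ⟨⟨c, hsub v hc⟩, mem_filter.2 ⟨mem_univ _, hc⟩, rfl⟩) hq
  refine ⟨fun v => (f v).1, fun v => (mem_filter.1 (h1.1 v)).2,
    fun u v huv h => h1.2 u v huv (Subtype.ext h), fun c => ?_⟩
  by_cases hc : c ∈ S
  · refine le_trans (card_le_card fun v hv => ?_) (h2 ⟨c, hc⟩)
    rw [mem_filter] at hv
    rw [mem_cls]
    exact Subtype.ext hv.2
  · have : (univ.filter fun v => (f v).1 = c) = ∅ := by
      rw [eq_empty_iff_forall_notMem]
      intro v hv
      exact hc ((mem_filter.1 hv).2 ▸ (f v).2)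
    rw [this, card_empty]
    exact Nat.zero_le _

end Pool.Agent.Helper80.KP
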