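import Pool.Agent.Helper80.KP.M2b

/-!
Equitable list colouring (MP_c0e710_co): the second method.
-/

open Classical

namespace Pool.Agent.Helper80.KP

open Finset Relation

theorem ar1 {R e β : ℕ} {A x g : ℚ} (hR : R ≤ 3) (he : e + 1 ≤ R) (hβ : β ≤ e)
    (hA : (R : ℚ) + 2 ≤ A) (hx : A ≤ x) (hg0 : 0 ≤ g) (hg : x ≤ e + β + g) :
    A + A * (A - 1) / R ≤ x + e + g * ((A - 1) / ((R : ℚ) - e)) + β / 3 := by
  have h1 : 0 ≤ A - 1 := by
    have : (0 : ℚ) ≤ R := Nat.cast_nonneg R
    linarith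
  have h2 : (x - e - β) * (A - 1) ≤ g * (A - 1) := mul_le_mul_of_nonneg_right (by linarith) h1
  have h3 : (A - e - β) * (A - 1) ≤ (x - e - β) * (A - 1) :=
    mul_le_mul_of_nonneg_right (by linarith) h1
  have hc : (R = 1 ∧ e = 0) ∨ (R = 2 ∧ e = 0) ∨ (R = 2 ∧ e = 1) ∨ (R = 3 ∧ e = 0) ∨
      (R = 3 ∧ e = 1) ∨ (R = 3 ∧ e = 2) := by omega
  rcases hc with ⟨rfl, rfl⟩ | ⟨rfl, rfl⟩ | ⟨rfl, rfl⟩ | ⟨rfl, rfl⟩ | ⟨rfl, rfl⟩ | ⟨rfl, rfl⟩ <;>
    interval_cases β <;> norm_num at * <;> nlinarith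

variable {V C : Type} [Fintype V] [Fintype C]
variable {G : SimpleGraph V} {L : V → Finset C} {q k a b R m : ℕ} {f g : V → C} {γ : C}

/-- all minimal closed sets -/
noncomputable def Wp (G : SimpleGraph V) (L : V → Finset C) (q : ℕ) (f : V → C) : Finset (C × C) :=
  univ.filter fun p => p.1 ∈ AA G L q f ∧ p.2 ∈ La G L q f p.1

theorem mem_Wp {p : C × C} : p ∈ Wp G L q f ↔ p.1 ∈ AA G L q f ∧ p.2 ∈ La G L q f p.1 := by
  simp [Wp]

theorem Wp_inj : Set.InjOn (fun p : C × C => p.2) (Wp G L q f : Set (C × C)) := by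
  intro p hp p' hp' he
  rw [mem_coe, mem_Wp] at hp hp'
  have he' : p.2 = p'.2 := he
  refine Prod.ext ?_ he'
  have h1 := La_arc hp.2
  have h2 := La_arc hp'.2
  have h3 := La_sub _ hp.2
  have h4 := La_sub _ hp'.2
  rw [← he'] at h2 h4
  exact rh_inj hp.1 hp'.1 h3 h4 h1 h2

theorem Wp_card : (Wp G L q f).card ≤ (Fl G L q f).card := by
  rw [← card_image_of_injOn Wp_inj]
  refine card_le_card fun l hl => ?_
  obtain ⟨p, hp, rfl⟩ := mem_image.1 hl
  rw [mem_Wp] at hp
  exact Extr.UU_sub_Fl _ (La_sub _ hp.2)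

/-- witnesses -/
structure Wit (G : SimpleGraph V) (L : V → Finset C) (q : ℕ) (f : V → C) (ω : C × C → V) :
    Prop where
  h : ∀ p ∈ Wp G L q f, f (ω p) = p.2 ∧ Mv G L f (ω p) p.1

namespace Extr

theorem le_nA {y : V} (hy : f y ∉ AA G L q f) :
    (L y ∩ AA G L q f).card ≤ (nA G L q f y).card := by
  rw [card_nA]
  have h5 : L y ∩ AA G L q f ⊆ (AA G L q f).filter fun c => c ∈ L y := by
    intro c' hc'
    rw [mem_inter] at hc'
    exact mem_filter.2 ⟨hc'.2, hc'.1⟩
  refine (card_le_card h5).trans ?_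
  rw [card_filter]
  refine sum_le_sum fun c' hc' => ?_
  split_ifs with h6
  · exact card_pos.2 (nbA hy h6 hc')
  · exact Nat.zero_le _

variable (E : Extr G L q k f γ)
include E

theorem exists_wit : ∃ ω, Wit G L q f ω := by
  have hw : ∀ p : C × C, ∃ w : V, p ∈ Wp G L q f → f w = p.2 ∧ Mv G L f w p.1 := by
    intro p
    by_cases hp : p ∈ Wp G L q f
    · obtain ⟨w, hw⟩ := La_arc (mem_Wp.1 hp).2
      exact ⟨w, fun _ => hw⟩
    · have : (cls f γ).Nonempty := by
        rw [← card_pos]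
        have := E.ne.2.1
        omega
      exact ⟨this.choose, fun h => absurd h hp⟩
  choose ω hω using hw
  exact ⟨ω, ⟨hω⟩⟩

variable {ω : C × C → V} (W : Wit G L q f ω)
include W

theorem beta_le {y : V} (hy : f y ∈ RR G L f γ) :
    ((Wp G L q f).filter fun p => G.Adj y (ω p)).card + (L y ∩ AA G L q f).card ≤
      (nA G L q f y).card := by
  have h1 : ((Wp G L q f).filter fun p => G.Adj y (ω p)).card ≤ ((AA G L q f).filter fun l =>
      ∃ p ∈ Wp G L q f, p.2 = l ∧ G.Adj y (ω p)).card := by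
    rw [← card_image_of_injOn (f := fun p : C × C => p.2)
      (Wp_inj.mono (coe_subset.2 (filter_subset _ _)))]
    refine card_le_card fun l hl => ?_
    obtain ⟨p, hp, rfl⟩ := mem_image.1 hl
    rw [mem_filter] at hp ⊢
    exact ⟨(mem_UU.1 (La_sub _ (mem_Wp.1 hp.1).2)).1, p, hp.1, rfl, hp.2⟩
  have h2 : (L y ∩ AA G L q f).card ≤ ((AA G L q f).filter fun l => l ∈ L y).card := by
    refine card_le_card fun l hl => ?_
    rw [mem_inter] at hl
    exact mem_filter.2 ⟨hl.2, hl.1⟩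
  rw [card_nA]
  refine (add_le_add h1 h2).trans ?_
  rw [card_filter, card_filter, ← sum_add_distrib]
  refine sum_le_sum fun l hl => ?_
  by_cases h3 : ∃ p ∈ Wp G L q f, p.2 = l ∧ G.Adj y (ω p)
  · rw [if_pos h3]
    obtain ⟨p, hp, rfl, hadj⟩ := h3
    have h4 := W.h p hp
    have h5 := E.nonsolo hy (mem_Wp.1 hp).1 (w := ω p) (by
      rw [h4.1]
      exact La_sub _ (mem_Wp.1 hp).2) h4.2 hadj
    rw [h4.1] at h5
    omega
  · rw [if_neg h3]
    split_ifs with h4
    · have := card_pos.2 (nbA (E.RR_not hy) h4 hl)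
      omega
    · exact Nat.zero_le _

omit E in
theorem blk_wit {y : V} {c : C} (hc : c ∈ AA G L q f) (h : Blk G L q f y c) :
    ∃ p ∈ Wp G L q f, p.1 = c ∧ G.Adj y (ω p) := by
  obtain ⟨X, hX, h⟩ := h
  have h2 : rh G L q f c X ∈ La G L q f c := mem_image_of_mem _ hX
  have h1 : (c, rh G L q f c X) ∈ Wp G L q f := mem_Wp.2 ⟨hc, h2⟩
  have h3 := W.h _ h1
  refine ⟨_, h1, rfl, h _ ?_ h3.2⟩
  rw [h3.1]
  exact (rh_spec hX).1

/-- good vertices of `A` for `y` -/
noncomputable def _root_.Pool.Agent.Helper80.KP.Gd (G : SimpleGraph V) (L : V → Finset C) (q : ℕ)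
    (f : V → C) (y : V) : Finset V :=
  (VA G L q f).filter fun z => Solo G L f y z ∧ ¬ Blk G L q f y (f z)

theorem good_y {y : V} (hy : f y ∈ RR G L f γ) :
    2 * (L y ∩ AA G L q f).card ≤ (nA G L q f y).card +
      ((Wp G L q f).filter fun p => G.Adj y (ω p)).card + (Gd G L q f y).card := by
  have h1 : ∀ c ∈ L y ∩ AA G L q f, 2 ≤ (Nc G f y c).card +
      (if Blk G L q f y c then 1 else 0) + (if ∃ z ∈ Gd G L q f y, f z = c then 1 else 0) := by
    intro c hc
    rw [mem_inter] at hc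
    obtain ⟨z, hz⟩ := nbA (E.RR_not hy) hc.1 hc.2
    have h0 := card_pos.2 ⟨z, hz⟩
    by_cases h2 : 2 ≤ (Nc G f y c).card
    · omega
    · by_cases h3 : Blk G L q f y c
      · rw [if_pos h3]
        omega
      · have hz' := mem_Nc.1 hz
        have h4 : Solo G L f y z := by
          refine ⟨hz'.1, hz'.2 ▸ hc.1, fun w hw hfw => ?_⟩
          exact card_le_one.1 (by omega) w (mem_Nc.2 ⟨hw, hfw.trans hz'.2⟩) z hz
        have h5 : ∃ z ∈ Gd G L q f y, f z = c := by
          refine ⟨z, ?_, hz'.2⟩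
          rw [Gd, mem_filter, mem_VA, hz'.2]
          exact ⟨hc.2, h4, h3⟩
        rw [if_pos h5]
        omega
  have h2 := sum_le_sum h1
  rw [sum_const, smul_eq_mul, sum_add_distrib, sum_add_distrib, ← card_filter, ← card_filter]
    at h2
  have h3 : ∑ c ∈ L y ∩ AA G L q f, (Nc G f y c).card ≤ (nA G L q f y).card := by
    rw [card_nA]
    exact sum_le_sum_of_subset inter_subset_right
  have h4 : ((L y ∩ AA G L q f).filter fun c => Blk G L q f y c).card ≤
      ((Wp G L q f).filter fun p => G.Adj y (ω p)).card := by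
    refine le_trans (card_le_card (t := ((Wp G L q f).filter fun p => G.Adj y (ω p)).image
      fun p => p.1) fun c hc => ?_) card_image_le
    rw [mem_filter, mem_inter] at hc
    obtain ⟨p, hp, hp1, hp2⟩ := blk_wit W hc.1.2 hc.2
    exact mem_image.2 ⟨p, mem_filter.2 ⟨hp, hp2⟩, hp1⟩
  have h5 : ((L y ∩ AA G L q f).filter fun c => ∃ z ∈ Gd G L q f y, f z = c).card ≤
      (Gd G L q f y).card := by
    refine le_trans (card_le_card (t := (Gd G L q f y).image f) fun c hc => ?_) card_image_le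
    rw [mem_filter] at hc
    obtain ⟨z, hz, hzc⟩ := hc.2
    exact mem_image.2 ⟨z, hz, hzc⟩
  omega

variable (N : Num G L q k f γ a b R m)
include N

theorem sum_beta : ∑ y ∈ VR G L f γ, ((Wp G L q f).filter fun p => G.Adj y (ω p)).card ≤
    (a - 1) * (k - 1) := by
  have e1 : ∑ y ∈ VR G L f γ, ((Wp G L q f).filter fun p => G.Adj y (ω p)).card =
      ∑ p ∈ Wp G L q f, ((VR G L f γ).filter fun y => G.Adj y (ω p)).card :=
    dc (VR G L f γ) (Wp G L q f) fun y p => G.Adj y (ω p)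
  rw [e1]
  have hF := E.card_Fl N
  have hk := N.hk
  have h1 : ∀ p ∈ Wp G L q f, ((VR G L f γ).filter fun y => G.Adj y (ω p)).card ≤ k - 1 := by
    intro p hp
    have h2 := W.h p hp
    have h3 := (mem_Wp.1 hp)
    have h4 := E.nB_om N h3.1 (w := ω p) (by
      rw [h2.1]
      exact La_sub _ h3.2) h2.2
    rw [h2.1] at h4
    have h5 : (cl G L q f p.1 p.2).card ≤ (Fl G L q f).card :=
      card_le_card ((cl_sub_UU (La_sub _ h3.2)).trans (UU_sub_Fl _))
    have h6 : ((VR G L f γ).filter fun y => G.Adj y (ω p)).card ≤ (nB G L q f (ω p)).card := by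
      refine card_le_card fun y hy => ?_
      rw [mem_filter, mem_VR] at hy
      exact mem_nB.2 ⟨hy.2.symm, E.RR_not hy.1⟩
    omega
  refine (sum_le_sum h1).trans ?_
  rw [sum_const, smul_eq_mul]
  refine Nat.mul_le_mul_right _ ?_
  have := Wp_card (G := G) (L := L) (q := q) (f := f)
  omega

/-- the excess of `y` -/
noncomputable def _root_.Pool.Agent.Helper80.KP.ex (G : SimpleGraph V) (L : V → Finset C) (q : ℕ)
    (f : V → C) (y : V) : ℕ := (nA G L q f y).card - (L y ∩ AA G L q f).card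

omit W in
theorem m1_z {z : V} (hz : z ∈ VA G L q f) : ((nB G L q f z).card : ℚ) +
    ∑ y ∈ (VR G L f γ).filter fun y => z ∈ Gd G L q f y,
      (((a : ℚ) - 1) / ((R : ℚ) - ex G L q f y)) ≤ (k : ℚ) - 1 := by
  have hzA := mem_VA.1 hz
  have hkq : (k : ℚ) = a + b := by exact_mod_cast N.hk
  have ha1 : (1 : ℚ) ≤ a := by exact_mod_cast N.a1
  by_cases h0 : (VR G L f γ).filter (fun y => z ∈ Gd G L q f y) = ∅
  · rw [h0, sum_empty, add_zero]
    have h2 := card_nA_nB (G := G) (L := L) (q := q) (f := f) z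
    have h3 := E.deg z
    have h4 : (nB G L q f z).card + 1 ≤ k := by omega
    have h5 : ((nB G L q f z).card : ℚ) + 1 ≤ k := by exact_mod_cast h4
    linarith
  · have hgood : ∀ y ∈ (VR G L f γ).filter (fun y => z ∈ Gd G L q f y),
        y ∈ Sz G L f γ z ∧ ¬ Blk G L q f y (f z) := by
      intro y hy
      rw [mem_filter, mem_VR, Gd, mem_filter] at hy
      exact ⟨mem_Sz.2 ⟨hy.1, hy.2.2.1⟩, hy.2.2.2⟩
    obtain ⟨y0, hy0⟩ := nonempty_iff_ne_empty.2 h0
    have hT := (E.good_z N hzA (hgood y0 hy0).1 (hgood y0 hy0).2).1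
    have h1 : (nB G L q f z).card ≤ b := by
      have := E.nB_le N z
      rw [hT, card_empty] at this
      exact this
    have h1' : ((nB G L q f z).card : ℚ) ≤ b := by exact_mod_cast h1
    have hs1 : 0 < (Sz G L f γ z).card := card_pos.2 ⟨y0, (hgood y0 hy0).1⟩
    have hs1' : (0 : ℚ) < (Sz G L f γ z).card := by exact_mod_cast hs1
    have h2 : ∀ y ∈ (VR G L f γ).filter (fun y => z ∈ Gd G L q f y),
        ((a : ℚ) - 1) / ((R : ℚ) - ex G L q f y) ≤ ((a : ℚ) - 1) / (Sz G L f γ z).card := by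
      intro y hy
      obtain ⟨g1, g2⟩ := hgood y hy
      have h3 := (E.good_z N hzA g1 g2).2
      have h4 : (Sz G L f γ z).card + ex G L q f y ≤ R := by
        have := le_nA (E.RR_not (mem_Sz.1 g1).1)
        unfold ex
        omega
      have h5 : ((Sz G L f γ z).card : ℚ) + ex G L q f y ≤ R := by exact_mod_cast h4
      exact div_le_div_of_nonneg_left (by linarith) hs1' (by linarith)
    have h3 := sum_le_sum h2
    rw [sum_const, nsmul_eq_mul] at h3
    have h4 : (((VR G L f γ).filter (fun y => z ∈ Gd G L q f y)).card : ℚ) ≤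
        (Sz G L f γ z).card := by
      exact_mod_cast card_le_card fun y hy => (hgood y hy).1
    have h5 : (((VR G L f γ).filter (fun y => z ∈ Gd G L q f y)).card : ℚ) *
        (((a : ℚ) - 1) / (Sz G L f γ z).card) ≤ (a : ℚ) - 1 := by
      calc _ ≤ ((Sz G L f γ z).card : ℚ) * (((a : ℚ) - 1) / (Sz G L f γ z).card) :=
            mul_le_mul_of_nonneg_right h4 (div_nonneg (by linarith) hs1'.le)
        _ = (a : ℚ) - 1 := by field_simp
    linarith

theorem m1_false (haR : R + 2 ≤ a) (hk9 : k ≤ 9) : False := by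
  have hkq : (k : ℚ) = a + b := by exact_mod_cast N.hk
  have hbq : (b : ℚ) = R + m := by exact_mod_cast N.hm
  have ha1 : (1 : ℚ) ≤ a := by exact_mod_cast N.a1
  have hR1 := N.R1
  have hR1q : (1 : ℚ) ≤ R := by exact_mod_cast N.R1
  have hR3 : R ≤ 3 := by
    have := N.hk
    have := N.hm
    omega
  -- sum over the vertices of `A`
  have hz := sum_le_sum fun z (hz : z ∈ VA G L q f) => E.m1_z N hz
  rw [sum_add_distrib, sum_const, nsmul_eq_mul] at hz
  have e1 : ∑ z ∈ VA G L q f, (nB G L q f z).card =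
      ∑ y ∈ VR G L f γ, (nA G L q f y).card + ∑ y ∈ VM G L q f γ, (nA G L q f y).card := by
    have h1 : ∀ z, (nB G L q f z).card = (nR G L f γ z).card + (nM G L q f γ z).card :=
      E.card_nB
    rw [sum_congr rfl fun z _ => h1 z, sum_add_distrib]
    congr 1
    · have := dc (VA G L q f) (VR G L f γ) fun z y => G.Adj z y
      convert this using 2 with z hz y hy
      · congr 1
        ext y
        rw [mem_nR, mem_filter, mem_VR]
        tauto
      · congr 1
        ext z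
        rw [mem_nA, mem_filter, mem_VA, G.adj_comm]
        tauto
    · have := dc (VA G L q f) (VM G L q f γ) fun z y => G.Adj z y
      convert this using 2 with z hz y hy
      · congr 1
        ext y
        rw [mem_nM, mem_filter, mem_VM]
        tauto
      · congr 1
        ext z
        rw [mem_nA, mem_filter, mem_VA, G.adj_comm]
        tauto
  have e2 : ∑ z ∈ VA G L q f, ∑ y ∈ (VR G L f γ).filter (fun y => z ∈ Gd G L q f y),
      (((a : ℚ) - 1) / ((R : ℚ) - ex G L q f y)) = ∑ y ∈ VR G L f γ,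
        ((Gd G L q f y).card : ℚ) * (((a : ℚ) - 1) / ((R : ℚ) - ex G L q f y)) := by
    simp_rw [sum_filter]
    rw [sum_comm]
    refine sum_congr rfl fun y _ => ?_
    rw [← sum_filter, sum_const, nsmul_eq_mul]
    congr 3
    ext z
    rw [mem_filter]
    exact ⟨fun h => h.2, fun h => ⟨(mem_filter.1 h).1, h⟩⟩
  have e1' : ∑ z ∈ VA G L q f, ((nB G L q f z).card : ℚ) =
      ∑ y ∈ VR G L f γ, ((nA G L q f y).card : ℚ) +
        ∑ y ∈ VM G L q f γ, ((nA G L q f y).card : ℚ) := by exact_mod_cast e1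
  rw [e1', e2] at hz
  -- lower bounds
  have hM : (a : ℚ) * (m * q) ≤ ∑ y ∈ VM G L q f γ, ((nA G L q f y).card : ℚ) := by
    have h1 : a * (m * q) ≤ ∑ y ∈ VM G L q f γ, (nA G L q f y).card := by
      have h2 : ∀ y ∈ VM G L q f γ, a ≤ (nA G L q f y).card := fun y hy =>
        (E.listA N y).trans (le_nA (mem_VM.1 hy).1)
      have := sum_le_sum h2
      rw [sum_const, smul_eq_mul, N.cM, mul_comm] at this
      exact this
    exact_mod_cast h1
  have hy : ∀ y ∈ VR G L f γ, (a : ℚ) + a * (a - 1) / R ≤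
      (((nA G L q f y).card : ℚ) +
        ((Gd G L q f y).card : ℚ) * (((a : ℚ) - 1) / ((R : ℚ) - ex G L q f y))) +
      (((Wp G L q f).filter fun p => G.Adj y (ω p)).card : ℚ) / 3 := by
    intro y hy
    have hyR := mem_VR.1 hy
    have h1 := E.beta_le W hyR
    have h2 := E.good_y W hyR
    have h3 := E.excess N hyR
    have h4 := E.listA N y
    have h5 : (nA G L q f y).card = (L y ∩ AA G L q f).card + ex G L q f y := by
      unfold ex
      omega
    have h6 := ar1 (R := R) (e := ex G L q f y)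
      (β := ((Wp G L q f).filter fun p => G.Adj y (ω p)).card) (A := a)
      (x := ((L y ∩ AA G L q f).card : ℚ)) (g := ((Gd G L q f y).card : ℚ)) hR3
      (by unfold ex; omega) (by unfold ex; omega) (by exact_mod_cast haR)
      (by exact_mod_cast h4) (Nat.cast_nonneg _) (by
        have : (L y ∩ AA G L q f).card ≤ ex G L q f y +
          ((Wp G L q f).filter fun p => G.Adj y (ω p)).card + (Gd G L q f y).card := by omega
        exact_mod_cast this)
    rw [h5]
    push_cast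
    linarith
  have hy' := sum_le_sum hy
  rw [sum_const, nsmul_eq_mul, sum_add_distrib, sum_add_distrib, ← sum_div] at hy'
  have hβ : (∑ y ∈ VR G L f γ, (((Wp G L q f).filter fun p => G.Adj y (ω p)).card : ℚ)) ≤
      ((a : ℚ) - 1) * ((k : ℚ) - 1) := by
    have h1 := E.sum_beta W N
    have h2 : ((∑ y ∈ VR G L f γ, ((Wp G L q f).filter fun p => G.Adj y (ω p)).card : ℕ) : ℚ) ≤
        (((a - 1) * (k - 1) : ℕ) : ℚ) := by exact_mod_cast h1
    have hk1 : 1 ≤ k := by
      have := N.hk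
      have := N.a1
      omega
    rw [Nat.cast_mul, Nat.cast_sub N.a1, Nat.cast_sub hk1] at h2
    push_cast at h2
    exact h2
  have hVA : ((VA G L q f).card : ℚ) + 1 ≤ a * q := by exact_mod_cast N.cA
  have hVR : ((VR G L f γ).card : ℚ) = R * q + 1 := by exact_mod_cast N.cR
  rw [hVR] at hy'
  have hk1 : (0 : ℚ) ≤ (k : ℚ) - 1 := by
    have : (0 : ℚ) ≤ b := Nat.cast_nonneg b
    linarith
  have h8 : ((VA G L q f).card : ℚ) * ((k : ℚ) - 1) ≤ (a * q - 1) * ((k : ℚ) - 1) :=
    mul_le_mul_of_nonneg_right (by linarith) hk1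
  have h9 : ((R : ℚ) * q + 1) * ((a : ℚ) + a * (a - 1) / R) + a * (m * q) =
      a * q * ((k : ℚ) - 1) + ((a : ℚ) + a * (a - 1) / R) := by
    have hR0 : (R : ℚ) ≠ 0 := by positivity
    rw [hkq, hbq]
    field_simp
    ring
  have h10 : (a : ℚ) + a * (a - 1) / R + ((k : ℚ) - 1) ≤
      (((a : ℚ) - 1) * ((k : ℚ) - 1)) / 3 := by linarith
  have hk8 : (k : ℚ) - 1 ≤ 8 := by
    have : (k : ℚ) ≤ 9 := by exact_mod_cast hk9
    linarith
  have hR3q : (R : ℚ) ≤ 3 := by exact_mod_cast hR3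
  have haRq : (R : ℚ) + 2 ≤ a := by exact_mod_cast haR
  have h11 : (a : ℚ) * (a - 1) / 3 ≤ a * (a - 1) / R := by
    refine div_le_div_of_nonneg_left (by nlinarith) (by linarith) hR3q
  have hkR : (a : ℚ) + R - 1 ≤ (k : ℚ) - 1 := by
    have : (0 : ℚ) ≤ m := Nat.cast_nonneg m
    linarith
  nlinarith

end Extr

end Pool.Agent.Helper80.KP
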