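import Pool.Agent.Helper80.KP.Count

/-!
Equitable list colouring (MP_c0e710_co): the bound for the classes, first method.
-/

open Classical

namespace Pool.Agent.Helper80.KP

open Finset Relation

theorem dc {α β : Type} (s : Finset α) (t : Finset β) (r : α → β → Prop) :
    ∑ x ∈ s, (t.filter fun y => r x y).card = ∑ y ∈ t, (s.filter fun x => r x y).card := by
  simp_rw [card_filter]
  exact sum_comm

theorem arD {C : Type} (Z : Finset C) (hne : Z.Nonempty) (D κ : C → ℚ) {s b R m T : ℚ}
    (hb : b = R + m) (hR : 1 ≤ R) (hm : 0 ≤ m) (hs : 0 ≤ s) (h1 : ∀ l ∈ Z, 1 ≤ κ l)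
    (h2 : ∀ l ∈ Z, κ l ≤ D l) (h4 : ∀ l ∈ Z, s ≤ b + κ l)
    (hT : T ≤ ∑ l ∈ Z, D l) (hD : ∑ l ∈ Z, D l ≤ R) :
    T + s - R ≤ ∑ l ∈ Z, s * ((2 * D l + m) / (b + κ l)) := by
  obtain ⟨l0, hl0, hmin⟩ := exists_min_image Z κ hne
  have hb0 : 0 < b := by linarith
  have hpos : ∀ l ∈ Z, 0 < b + κ l := fun l hl => by linarith [h1 l hl]
  have hDle : ∀ l ∈ Z, D l ≤ R := fun l hl =>
    (single_le_sum (f := D) (fun i hi => by linarith [h1 i hi, h2 i hi]) hl).trans hD
  obtain ⟨t, ht⟩ : ∃ t, t = s / (b + κ l0) := ⟨_, rfl⟩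
  have ht0 : 0 ≤ t := by
    rw [ht]
    exact div_nonneg hs (hpos l0 hl0).le
  have ht1 : t ≤ 1 := by
    rw [ht, div_le_one (hpos l0 hl0)]
    exact h4 l0 hl0
  have hst : s = t * (b + κ l0) := by
    rw [ht, div_mul_cancel₀ _ (hpos l0 hl0).ne']
  have hterm : ∀ l ∈ Z, t * D l ≤ s * ((2 * D l + m) / (b + κ l)) := by
    intro l hl
    rw [← mul_div_assoc, le_div_iff₀ (hpos l hl), hst]
    have e1 : κ l ≤ b := by linarith [h2 l hl, hDle l hl]
    have e2 : 0 ≤ D l := by linarith [h1 l hl, h2 l hl]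
    have e3 := h1 l0 hl0
    have e4 : D l * (b + κ l) ≤ (b + κ l0) * (2 * D l + m) := by nlinarith
    nlinarith [mul_le_mul_of_nonneg_left e4 ht0]
  have hl0' : s * ((2 * D l0 + m) / (b + κ l0)) = t * (2 * D l0 + m) := by
    rw [ht]
    ring
  have hsum : t * (2 * D l0 + m) + t * ∑ l ∈ Z.erase l0, D l ≤
      ∑ l ∈ Z, s * ((2 * D l + m) / (b + κ l)) := by
    rw [← add_sum_erase Z _ hl0, hl0', mul_sum]
    exact add_le_add le_rfl (sum_le_sum fun l hl => hterm l (mem_of_mem_erase hl))
  have hS : D l0 + ∑ l ∈ Z.erase l0, D l = ∑ l ∈ Z, D l := add_sum_erase Z D hl0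
  refine le_trans ?_ hsum
  have e5 := h2 l0 hl0
  nlinarith [mul_le_mul_of_nonneg_left e5 ht0, mul_le_mul_of_nonneg_left hD (sub_nonneg.2 ht1)]

theorem arC {C : Type} (Z : Finset C) (D κ σ : C → ℚ) {s b R m : ℚ}
    (hb : b = R + m) (hR : 1 ≤ R) (hm : 0 ≤ m) (hs : s ≤ b) (h1 : ∀ l ∈ Z, 1 ≤ κ l)
    (h2 : ∀ l ∈ Z, κ l ≤ D l) (h3 : ∀ l ∈ Z, 0 ≤ σ l) (h4 : s ≤ ∑ l ∈ Z, σ l) :
    s - R ≤ ∑ l ∈ Z, σ l * ((2 * D l + m) / (b + κ l)) := by
  have hb0 : 0 < b := by linarith
  have h5 : ∀ l ∈ Z, σ l * (m / b) ≤ σ l * ((2 * D l + m) / (b + κ l)) := by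
    intro l hl
    refine mul_le_mul_of_nonneg_left ?_ (h3 l hl)
    rw [div_le_div_iff₀ hb0 (by linarith [h1 l hl])]
    nlinarith [h1 l hl, h2 l hl]
  refine le_trans ?_ (sum_le_sum h5)
  rw [← sum_mul]
  have h6 : s * (m / b) ≤ (∑ l ∈ Z, σ l) * (m / b) :=
    mul_le_mul_of_nonneg_right h4 (div_nonneg hm hb0.le)
  refine le_trans ?_ h6
  have h7 : s - s * (m / b) = s * R / b := by
    field_simp
    rw [hb]
    ring
  have h8 : s * R / b ≤ R := by
    rw [div_le_iff₀ hb0]
    nlinarith
  linarith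

variable {V C : Type} [Fintype V] [Fintype C]
variable {G : SimpleGraph V} {L : V → Finset C} {q k a b R m : ℕ} {f g : V → C} {γ : C}

/-- solo neighbours of `z` in `R` -/
noncomputable def Sz (G : SimpleGraph V) (L : V → Finset C) (f : V → C) (γ : C) (z : V) : Finset V :=
  (VR G L f γ).filter fun y => Solo G L f y z

theorem mem_Sz {y z : V} : y ∈ Sz G L f γ z ↔ f y ∈ RR G L f γ ∧ Solo G L f y z := by
  rw [Sz, mem_filter, mem_VR]

/-- representatives of the minimal closed sets -/
noncomputable def La (G : SimpleGraph V) (L : V → Finset C) (q : ℕ) (f : V → C) (c : C) : Finset C :=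
  (UU G L q f c).image (rh G L q f c)

namespace Extr

variable (E : Extr G L q k f γ)
include E

theorem Sz_sub (z : V) : Sz G L f γ z ⊆ nR G L f γ z := by
  intro y hy
  rw [mem_Sz] at hy
  exact mem_nR.2 ⟨hy.2.1.symm, hy.1⟩

theorem Sz_card (z : V) : (Sz G L f γ z).card ≤ (nB G L q f z).card := by
  have h1 := card_le_card (E.Sz_sub z)
  have h2 := E.card_nB z
  omega

/-- double counting for a class -/
theorem count_c {c : C} (hc : c ∈ AA G L q f) :
    2 * ((VR G L f γ).filter fun y => c ∈ L y).card + ((VM G L q f γ).filter fun y => c ∈ L y).card ≤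
      ∑ z ∈ cls f c, ((nR G L f γ z).card + (nM G L q f γ z).card + (Sz G L f γ z).card) := by
  have e1 : ∑ z ∈ cls f c, (nR G L f γ z).card = ∑ y ∈ VR G L f γ, (Nc G f y c).card := by
    have := dc (cls f c) (VR G L f γ) fun z y => G.Adj z y
    convert this using 2 with z hz y hy
    · congr 1
      ext y
      rw [mem_nR, mem_filter, mem_VR]
      tauto
    · congr 1
      ext z
      rw [mem_Nc, mem_filter, mem_cls, G.adj_comm]
      tauto
  have e2 : ∑ z ∈ cls f c, (nM G L q f γ z).card = ∑ y ∈ VM G L q f γ, (Nc G f y c).card := by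
    have := dc (cls f c) (VM G L q f γ) fun z y => G.Adj z y
    convert this using 2 with z hz y hy
    · congr 1
      ext y
      rw [mem_nM, mem_filter, mem_VM]
      tauto
    · congr 1
      ext z
      rw [mem_Nc, mem_filter, mem_cls, G.adj_comm]
      tauto
  have e3 : ∑ z ∈ cls f c, (Sz G L f γ z).card =
      ∑ y ∈ VR G L f γ, ((cls f c).filter fun z => Solo G L f y z).card :=
    dc (cls f c) (VR G L f γ) fun z y => Solo G L f y z
  rw [sum_add_distrib, sum_add_distrib, e1, e2, e3]
  have h1 : 2 * ((VR G L f γ).filter fun y => c ∈ L y).card ≤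
      ∑ y ∈ VR G L f γ, (Nc G f y c).card +
        ∑ y ∈ VR G L f γ, ((cls f c).filter fun z => Solo G L f y z).card := by
    rw [← sum_add_distrib, mul_comm, ← smul_eq_mul, ← sum_const]
    refine (sum_le_sum (g := fun y => (Nc G f y c).card +
      ((cls f c).filter fun z => Solo G L f y z).card) fun y hy => ?_).trans
      (sum_le_sum_of_subset (filter_subset _ _))
    rw [mem_filter, mem_VR] at hy
    by_cases h2 : 2 ≤ (Nc G f y c).card
    · exact le_add_right h2
    · obtain ⟨z, hz⟩ := nbA (E.RR_not hy.1) hy.2 hc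
      have hz' := mem_Nc.1 hz
      have h3 : Solo G L f y z := by
        refine ⟨hz'.1, hz'.2 ▸ hy.2, fun w hw hfw => ?_⟩
        exact card_le_one.1 (by omega) w (mem_Nc.2 ⟨hw, hfw.trans hz'.2⟩) z hz
      have h4 : 0 < ((cls f c).filter fun z => Solo G L f y z).card :=
        card_pos.2 ⟨z, mem_filter.2 ⟨mem_cls.2 hz'.2, h3⟩⟩
      have h5 : 0 < (Nc G f y c).card := card_pos.2 ⟨z, hz⟩
      omega
  have h2 : ((VM G L q f γ).filter fun y => c ∈ L y).card ≤
      ∑ y ∈ VM G L q f γ, (Nc G f y c).card := by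
    rw [card_eq_sum_ones]
    refine (sum_le_sum (g := fun y => (Nc G f y c).card) fun y hy => ?_).trans
      (sum_le_sum_of_subset (filter_subset _ _))
    rw [mem_filter, mem_VM] at hy
    exact card_pos.2 (nbA hy.1.1 hy.2 hc)
  omega

/-- `T z` is empty if `z` has an unblocked solo neighbour, and then the solo neighbours form a clique -/
theorem good_z (N : Num G L q k f γ a b R m) {y z : V} (hz : f z ∈ AA G L q f)
    (hy : y ∈ Sz G L f γ z) (hb : ¬ Blk G L q f y (f z)) : TT G L q f z = ∅ ∧
      (Sz G L f γ z).card + (nA G L q f y).card ≤ (L y ∩ AA G L q f).card + R := by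
  rw [mem_Sz] at hy
  have hT : TT G L q f z = ∅ := by
    by_contra h
    obtain ⟨X, hX⟩ := nonempty_iff_ne_empty.2 h
    exact hb ⟨X, E.blk hy.1 hz hy.2 hX⟩
  refine ⟨hT, ?_⟩
  have h1 : (Sz G L f γ z).erase y ⊆ nR G L f γ y := by
    intro y' hy'
    rw [mem_erase, mem_Sz] at hy'
    exact mem_nR.2 ⟨E.S2 hy.1 hz hy.2 hT hy'.2.2 (E.RR_not hy'.2.1) hy'.1.symm hb, hy'.2.1⟩
  have h2 := card_le_card h1
  have h3 := card_erase_add_one (mem_Sz.2 hy)
  have h4 := E.excess N hy.1
  omega

/-- number of classes of the fibre -/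
noncomputable def _root_.Pool.Agent.Helper80.KP.Dl (G : SimpleGraph V) (L : V → Finset C) (q : ℕ)
    (f : V → C) (c l : C) : ℕ := ((UU G L q f c).filter fun X => rh G L q f c X = l).card

omit E in
theorem cl_le_Dl {c l : C} (hl : l ∈ La G L q f c) :
    (cl G L q f c l).card ≤ Dl G L q f c l := by
  obtain ⟨X, hX, rfl⟩ := mem_image.1 hl
  refine card_le_card fun X' hX' => ?_
  rw [mem_filter]
  exact ⟨cl_sub_UU (rh_mem hX) hX', rh_eq hX (mem_cl.1 hX')⟩

omit E in
theorem sum_Dl (c : C) : ∑ l ∈ La G L q f c, Dl G L q f c l = (UU G L q f c).card := by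
  rw [La]
  exact (card_eq_sum_card_image (rh G L q f c) (UU G L q f c)).symm

omit E in
theorem UU_sub_Fl (c : C) : UU G L q f c ⊆ Fl G L q f := fun _ hX =>
  mem_Fl.2 ⟨(mem_UU.1 hX).1, UU_not_hole hX⟩

/-- the bound for a class -/
theorem bound_c (N : Num G L q k f γ a b R m) (haR : a ≤ R + 1) {c : C} (hc : c ∈ AA G L q f) :
    2 * ((VR G L f γ).filter fun y => c ∈ L y).card + ((VM G L q f γ).filter fun y => c ∈ L y).card ≤
      (b + R) * (cls f c).card + 2 * (UU G L q f c).card + m * (La G L q f c).card := by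
  have hU : (UU G L q f c).card + 1 ≤ a := by
    have h1 := card_le_card (UU_sub_Fl (G := G) (L := L) (q := q) (f := f) c)
    have h2 := E.card_Fl N
    omega
  -- witnesses
  have hw : ∀ l : C, ∃ w : V, l ∈ La G L q f c → f w = l ∧ Mv G L f w c := by
    intro l
    by_cases hl : l ∈ La G L q f c
    · obtain ⟨X, hX, rfl⟩ := mem_image.1 hl
      obtain ⟨w, hw⟩ := (rh_spec hX).2.1
      exact ⟨w, fun _ => hw⟩
    · have : (cls f γ).Nonempty := by
        rw [← card_pos]
        have := E.ne.2.1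
        omega
      exact ⟨this.choose, fun h => absurd h hl⟩
  choose ω hω using hw
  have hlU : ∀ l ∈ La G L q f c, l ∈ UU G L q f c := by
    intro l hl
    obtain ⟨X, hX, rfl⟩ := mem_image.1 hl
    exact rh_mem hX
  have hBl : ∀ l ∈ La G L q f c, (nB G L q f (ω l)).card ≤ b + (cl G L q f c l).card := by
    intro l hl
    have h1 := hω l hl
    have h2 := E.nB_om N hc (w := ω l) (by rw [h1.1]; exact hlU l hl) h1.2
    rwa [h1.1] at h2
  have hcl1 : ∀ l ∈ La G L q f c, 1 ≤ (cl G L q f c l).card := fun l _ =>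
    card_pos.2 ⟨l, mem_cl.2 .refl⟩
  -- blocked neighbours
  have hblk1 : ∀ y z X, f z = c → y ∈ Sz G L f γ z → X ∈ TT G L q f z →
      X ∈ UU G L q f c ∧ G.Adj y (ω (rh G L q f c X)) := by
    intro y z X hz hy hX
    rw [mem_Sz] at hy
    have h1 := E.blk hy.1 (hz ▸ hc) hy.2 hX
    rw [hz] at h1
    refine ⟨h1.1, ?_⟩
    have h2 : rh G L q f c X ∈ La G L q f c := mem_image_of_mem _ h1.1
    have h3 := hω _ h2
    refine h1.2 _ ?_ h3.2
    rw [h3.1]
    exact (rh_spec h1.1).1
  have hblk2 : ∀ y, Blk G L q f y c → ∃ l ∈ La G L q f c, G.Adj y (ω l) := by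
    rintro y ⟨X, hX, h⟩
    have h2 : rh G L q f c X ∈ La G L q f c := mem_image_of_mem _ hX
    have h3 := hω _ h2
    refine ⟨_, h2, h _ ?_ h3.2⟩
    rw [h3.1]
    exact (rh_spec hX).1
  -- rational weights
  obtain ⟨W, hW⟩ : ∃ W : C → ℚ, W = fun l => (2 * (Dl G L q f c l : ℚ) + m) /
      (b + (cl G L q f c l).card) := ⟨_, rfl⟩
  have hR1 : (1 : ℚ) ≤ R := by exact_mod_cast N.R1
  have hbq : (b : ℚ) = R + m := by exact_mod_cast N.hm
  have hm0 : (0 : ℚ) ≤ m := Nat.cast_nonneg m
  have hW0 : ∀ l, 0 ≤ W l := by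
    intro l
    rw [hW]
    positivity
  have hz : ∀ z ∈ cls f c, ((nR G L f γ z).card + (nM G L q f γ z).card + (Sz G L f γ z).card : ℚ) ≤
      (b + R) + ∑ l ∈ La G L q f c,
        (((Sz G L f γ z).filter fun y => G.Adj y (ω l)).card : ℚ) * W l := by
    intro z hz
    rw [mem_cls] at hz
    have hzA : f z ∈ AA G L q f := hz ▸ hc
    have hnB : ((nR G L f γ z).card + (nM G L q f γ z).card : ℚ) = (nB G L q f z).card := by
      exact_mod_cast (E.card_nB z).symm
    rw [hnB]
    have hpos : (0 : ℚ) ≤ ∑ l ∈ La G L q f c,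
        (((Sz G L f γ z).filter fun y => G.Adj y (ω l)).card : ℚ) * W l :=
      sum_nonneg fun l _ => mul_nonneg (Nat.cast_nonneg _) (hW0 l)
    by_cases h0 : Sz G L f γ z = ∅
    · have h1 : (nB G L q f z).card ≤ b + R := by
        have h2 := card_nA_nB (G := G) (L := L) (q := q) (f := f) z
        have h3 := E.deg z
        have h4 := N.hk
        omega
      have h5 : ((nB G L q f z).card : ℚ) ≤ b + R := by exact_mod_cast h1
      rw [h0, card_empty, Nat.cast_zero]
      simp only [h0, filter_empty, card_empty, Nat.cast_zero, zero_mul, sum_const_zero] at hpos ⊢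
      linarith
    · by_cases hT : TT G L q f z = ∅
      · have h1 : (nB G L q f z).card ≤ b := by
          have := E.nB_le N z
          rw [hT, card_empty] at this
          exact this
        have h1' : ((nB G L q f z).card : ℚ) ≤ b := by exact_mod_cast h1
        by_cases hg : ∃ y ∈ Sz G L f γ z, ¬ Blk G L q f y (f z)
        · obtain ⟨y, hy, hb⟩ := hg
          have h2 := (E.good_z N hzA hy hb).2
          have h3 : (Sz G L f γ z).card ≤ R := by
            have h4 : (L y ∩ AA G L q f).card ≤ (nA G L q f y).card := by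
              rw [card_nA]
              have hyR := (mem_Sz.1 hy).1
              have h5 : L y ∩ AA G L q f ⊆ (AA G L q f).filter fun c => c ∈ L y := by
                intro c' hc'
                rw [mem_inter] at hc'
                exact mem_filter.2 ⟨hc'.2, hc'.1⟩
              refine (card_le_card h5).trans ?_
              rw [card_filter]
              refine sum_le_sum fun c' hc' => ?_
              split_ifs with h6
              · exact card_pos.2 (nbA (E.RR_not hyR) h6 hc')
              · exact Nat.zero_le _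
            omega
          have h3' : ((Sz G L f γ z).card : ℚ) ≤ R := by exact_mod_cast h3
          linarith
        · push Not at hg
          have h2 : ((Sz G L f γ z).card : ℚ) - R ≤ ∑ l ∈ La G L q f c,
              (((Sz G L f γ z).filter fun y => G.Adj y (ω l)).card : ℚ) * W l := by
            rw [hW]
            refine arC (La G L q f c) (fun l => (Dl G L q f c l : ℚ))
              (fun l => ((cl G L q f c l).card : ℚ))
              (fun l => (((Sz G L f γ z).filter fun y => G.Adj y (ω l)).card : ℚ)) hbq hR1 hm0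
              ?_ ?_ ?_ (fun _ _ => Nat.cast_nonneg _) ?_
            · exact_mod_cast (E.Sz_card z).trans h1
            · intro l hl
              exact_mod_cast hcl1 l hl
            · intro l hl
              exact_mod_cast cl_le_Dl hl
            · have h3 : Sz G L f γ z ⊆ (La G L q f c).biUnion fun l =>
                  (Sz G L f γ z).filter fun y => G.Adj y (ω l) := by
                intro y hy
                obtain ⟨l, hl, hyl⟩ := hblk2 y (hz ▸ hg y hy)
                exact mem_biUnion.2 ⟨l, hl, mem_filter.2 ⟨hy, hyl⟩⟩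
              exact_mod_cast (card_le_card h3).trans card_biUnion_le
          linarith
      · -- movable
        obtain ⟨X0, hX0⟩ := nonempty_iff_ne_empty.2 hT
        obtain ⟨y0, hy0⟩ := nonempty_iff_ne_empty.2 h0
        obtain ⟨Z, hZ⟩ : ∃ Z, Z = (TT G L q f z).image (rh G L q f c) := ⟨_, rfl⟩
        have hTU : TT G L q f z ⊆ UU G L q f c := fun X hX => (hblk1 y0 z X hz hy0 hX).1
        have hZs : Z ⊆ La G L q f c := by
          rw [hZ]
          exact image_subset_image hTU
        have hall : ∀ l ∈ Z, (Sz G L f γ z).filter (fun y => G.Adj y (ω l)) = Sz G L f γ z := by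
          intro l hl
          rw [hZ] at hl
          obtain ⟨X, hX, rfl⟩ := mem_image.1 hl
          exact filter_true_of_mem fun y hy => (hblk1 y z X hz hy hX).2
        have hsle : ∀ l ∈ Z, (Sz G L f γ z).card ≤ b + (cl G L q f c l).card := by
          intro l hl
          refine le_trans (card_le_card ?_) (hBl l (hZs hl))
          intro y hy
          have h1 := hy
          rw [← hall l hl, mem_filter] at h1
          exact mem_nB.2 ⟨h1.2.symm, E.RR_not (mem_Sz.1 hy).1⟩
        have hTD : (TT G L q f z).card ≤ ∑ l ∈ Z, Dl G L q f c l := by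
          rw [card_eq_sum_card_image (rh G L q f c) (TT G L q f z), ← hZ]
          exact sum_le_sum fun l _ => card_le_card (filter_subset_filter _ hTU)
        have hDR : ∑ l ∈ Z, Dl G L q f c l ≤ R := by
          have h1 : ∑ l ∈ Z, Dl G L q f c l ≤ (UU G L q f c).card := by
            rw [← sum_Dl c]
            exact sum_le_sum_of_subset hZs
          omega
        have h1 := arD Z ⟨_, hZ ▸ mem_image_of_mem _ hX0⟩ (fun l => (Dl G L q f c l : ℚ))
          (fun l => ((cl G L q f c l).card : ℚ)) (s := ((Sz G L f γ z).card : ℚ))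
          (T := ((TT G L q f z).card : ℚ)) hbq hR1 hm0 (Nat.cast_nonneg _)
          (fun l hl => by exact_mod_cast hcl1 l (hZs hl))
          (fun l hl => by exact_mod_cast cl_le_Dl (hZs hl))
          (fun l hl => by exact_mod_cast hsle l hl)
          (by exact_mod_cast hTD) (by exact_mod_cast hDR)
        have h2 : ∑ l ∈ Z, ((Sz G L f γ z).card : ℚ) * ((2 * (Dl G L q f c l : ℚ) + m) /
            (b + (cl G L q f c l).card)) ≤ ∑ l ∈ La G L q f c,
            (((Sz G L f γ z).filter fun y => G.Adj y (ω l)).card : ℚ) * W l := by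
          refine le_trans (le_of_eq (sum_congr rfl fun l hl => ?_))
            (sum_le_sum_of_subset_of_nonneg hZs
              fun l _ _ => mul_nonneg (Nat.cast_nonneg _) (hW0 l))
          rw [hall l hl, hW]
        have h3 : ((nB G L q f z).card : ℚ) ≤ b + (TT G L q f z).card := by
          exact_mod_cast E.nB_le N z
        linarith
  -- sum over the class
  have hsum := sum_le_sum hz
  have e9 : ∑ z ∈ cls f c, (((b : ℚ) + R) + ∑ l ∈ La G L q f c,
      (((Sz G L f γ z).filter fun y => G.Adj y (ω l)).card : ℚ) * W l) =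
      (cls f c).card * ((b : ℚ) + R) + ∑ l ∈ La G L q f c, ∑ z ∈ cls f c,
        (((Sz G L f γ z).filter fun y => G.Adj y (ω l)).card : ℚ) * W l := by
    rw [sum_add_distrib, sum_const, nsmul_eq_mul, sum_comm]
  rw [e9] at hsum
  have hdis : ∀ l ∈ La G L q f c, ∑ z ∈ cls f c,
      (((Sz G L f γ z).filter fun y => G.Adj y (ω l)).card : ℚ) * W l ≤
      2 * (Dl G L q f c l : ℚ) + m := by
    intro l hl
    rw [← sum_mul]
    have h1 : ∑ z ∈ cls f c, ((Sz G L f γ z).filter fun y => G.Adj y (ω l)).card ≤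
        b + (cl G L q f c l).card := by
      rw [← card_biUnion]
      · refine le_trans (card_le_card fun y hy => ?_) (hBl l hl)
        obtain ⟨z, hz, hy⟩ := mem_biUnion.1 hy
        rw [mem_filter, mem_Sz] at hy
        exact mem_nB.2 ⟨hy.2.symm, E.RR_not hy.1.1⟩
      · intro z hz z' hz' hne
        rw [Function.onFun, disjoint_left]
        intro y hy hy'
        rw [mem_filter, mem_Sz] at hy hy'
        rw [mem_coe, mem_cls] at hz hz'
        exact hne (hy'.1.2.2.2 z hy.1.2.1 (hz.trans hz'.symm))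
    have h2 : (∑ z ∈ cls f c, (((Sz G L f γ z).filter fun y => G.Adj y (ω l)).card : ℚ)) ≤
        b + (cl G L q f c l).card := by exact_mod_cast h1
    have h3 : (0 : ℚ) < b + (cl G L q f c l).card := by
      have : (1 : ℚ) ≤ (cl G L q f c l).card := by exact_mod_cast hcl1 l hl
      positivity
    calc _ ≤ (b + (cl G L q f c l).card : ℚ) * W l := mul_le_mul_of_nonneg_right h2 (hW0 l)
      _ = 2 * (Dl G L q f c l : ℚ) + m := by
        rw [hW]
        field_simp
  have h4 := sum_le_sum hdis
  rw [sum_add_distrib, ← mul_sum, sum_const, nsmul_eq_mul] at h4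
  have h5 : ∑ l ∈ La G L q f c, (Dl G L q f c l : ℚ) = (UU G L q f c).card := by
    exact_mod_cast sum_Dl c
  rw [h5] at h4
  have h6 := E.count_c hc
  have h7 : (2 * ((VR G L f γ).filter fun y => c ∈ L y).card +
      ((VM G L q f γ).filter fun y => c ∈ L y).card : ℚ) ≤
      ∑ z ∈ cls f c, ((nR G L f γ z).card + (nM G L q f γ z).card + (Sz G L f γ z).card : ℚ) := by
    exact_mod_cast h6
  have h8 : (2 * ((VR G L f γ).filter fun y => c ∈ L y).card +
      ((VM G L q f γ).filter fun y => c ∈ L y).card : ℚ) ≤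
      (b + R) * (cls f c).card + 2 * (UU G L q f c).card + m * (La G L q f c).card := by
    refine h7.trans (hsum.trans ?_)
    linarith
  exact_mod_cast h8

end Extr

end Pool.Agent.Helper80.KP
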