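import Pool.Agent.Helper80.KP.M2

/-!
Equitable list colouring (MP_c0e710_co): the contradiction of the first method.
-/

open Classical

namespace Pool.Agent.Helper80.KP

open Finset Relation

variable {V C : Type} [Fintype V] [Fintype C]
variable {G : SimpleGraph V} {L : V → Finset C} {q k a b R m : ℕ} {f g : V → C} {γ : C}

/-- minimal classes -/
theorem exists_leaf {X : C} (hX : X ∈ AA G L q f) :
    ∃ Y, (Y = X ∨ Y ∈ UU G L q f X) ∧ UU G L q f Y = ∅ := by
  obtain ⟨Y, hY, hmin⟩ := exists_min_image (insert X (UU G L q f X))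
    (fun Y => (UU G L q f Y).card) ⟨X, mem_insert_self _ _⟩
  rw [mem_insert] at hY
  refine ⟨Y, hY, ?_⟩
  by_contra h
  obtain ⟨Z, hZ⟩ := nonempty_iff_ne_empty.2 h
  have hYA : Y ∈ AA G L q f := by
    rcases hY with h | h
    · rw [h]
      exact hX
    · exact (mem_UU.1 h).1
  have hZX : Z ∈ UU G L q f X := by
    rcases hY with h | h
    · rw [← h]
      exact hZ
    · exact UU_trans hX hZ h
  have h1 := hmin Z (mem_insert_of_mem hZX)
  have h2 : UU G L q f Z ⊂ UU G L q f Y := by
    refine ⟨fun W hW => UU_trans hYA hW hZ, fun h3 => ?_⟩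
    exact (mem_UU.1 (h3 hZ)).2.1 rfl
  have h3 := card_lt_card h2
  omega

/-- the classes with holes -/
noncomputable def Ho (G : SimpleGraph V) (L : V → Finset C) (q : ℕ) (f : V → C) : Finset C :=
  (AA G L q f).filter fun c => Hole q f c

theorem mem_Ho {c : C} : c ∈ Ho G L q f ↔ c ∈ AA G L q f ∧ Hole q f c := by simp [Ho]

theorem UU_disj {c c' X : C} (hc : c ∈ Ho G L q f) (hc' : c' ∈ Ho G L q f)
    (h : X ∈ UU G L q f c) (h' : X ∈ UU G L q f c') : c = c' := by
  rw [mem_Ho] at hc hc'
  by_contra hne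
  rcases UU_chain hc.1 hc'.1 hne h h' with h1 | h1
  · exact UU_not_hole h1 hc.2
  · exact UU_not_hole h1 hc'.2

theorem sum_UU_le : ∑ c ∈ Ho G L q f, (UU G L q f c).card ≤ (Fl G L q f).card := by
  rw [← card_biUnion]
  · refine card_le_card fun X hX => ?_
    obtain ⟨c, _, h⟩ := mem_biUnion.1 hX
    exact Extr.UU_sub_Fl c h
  · intro c hc c' hc' hne
    rw [Function.onFun, disjoint_left]
    intro X h h'
    exact hne (UU_disj hc hc' h h')

theorem La_sub (c : C) : La G L q f c ⊆ UU G L q f c := by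
  intro l hl
  obtain ⟨X, hX, rfl⟩ := mem_image.1 hl
  exact rh_mem hX

theorem La_arc {c l : C} (hl : l ∈ La G L q f c) : Arc G L f l c := by
  obtain ⟨X, hX, rfl⟩ := mem_image.1 hl
  exact (rh_spec hX).2.1

theorem sum_La_le : ∑ c ∈ Ho G L q f, (La G L q f c).card +
    ((Fl G L q f).filter fun c => UU G L q f c ≠ ∅).card ≤ (Fl G L q f).card := by
  rw [← card_biUnion]
  swap
  · intro c hc c' hc' hne
    rw [Function.onFun, disjoint_left]
    intro X h h'
    exact hne (UU_disj hc hc' (La_sub c h) (La_sub c' h'))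
  obtain ⟨H, hH⟩ : ∃ H, H = (Ho G L q f).biUnion (La G L q f) := ⟨_, rfl⟩
  rw [← hH]
  have hHA : ∀ X ∈ H, ∃ c ∈ Ho G L q f, X ∈ UU G L q f c ∧ Arc G L f X c := by
    intro X hX
    rw [hH] at hX
    obtain ⟨c, hc, h⟩ := mem_biUnion.1 hX
    exact ⟨c, hc, La_sub c h, La_arc h⟩
  have hleaf : ∀ X : C, ∃ Y, X ∈ AA G L q f →
      (Y = X ∨ Y ∈ UU G L q f X) ∧ UU G L q f Y = ∅ := by
    intro X
    by_cases hX : X ∈ AA G L q f
    · obtain ⟨Y, hY⟩ := exists_leaf hX
      exact ⟨Y, fun _ => hY⟩
    · exact ⟨X, fun h => absurd h hX⟩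
  choose ℓ hℓ using hleaf
  -- an element of `H` is not below another one
  have key : ∀ X ∈ H, ∀ X' ∈ H, X ∉ UU G L q f X' := by
    intro X hX X' hX' h
    obtain ⟨c, hc, h1, h2⟩ := hHA X hX
    obtain ⟨c', hc', h3, _⟩ := hHA X' hX'
    rw [mem_Ho] at hc
    have hne : c ≠ X' := by
      rintro rfl
      exact UU_not_hole h3 hc.2
    exact (mem_UU.1 h).2.2 c hc.2 (ReflTransGen.single ⟨h2, hc.1, hne⟩)
  have hA : ∀ X ∈ H, X ∈ AA G L q f := fun X hX => by
    obtain ⟨c, _, h1, _⟩ := hHA X hX
    exact (mem_UU.1 h1).1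
  have hinj : Set.InjOn ℓ H := by
    intro X hX X' hX' he
    by_contra hne
    obtain ⟨h1, _⟩ := hℓ X (hA X hX)
    obtain ⟨h2, _⟩ := hℓ X' (hA X' hX')
    rw [he] at h1
    rcases h1 with h1 | h1
    · rcases h2 with h2 | h2
      · exact hne (h1.symm.trans h2)
      · rw [h1] at h2
        exact key X hX X' hX' h2
    · rcases h2 with h2 | h2
      · rw [h2] at h1
        exact key X' hX' X hX h1
      · rcases UU_chain (hA X hX) (hA X' hX') hne h1 h2 with h3 | h3
        · exact key X hX X' hX' h3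
        · exact key X' hX' X hX h3
  have hFl : ∀ X ∈ H, X ∈ Fl G L q f := by
    intro X hX
    obtain ⟨c, _, h1, _⟩ := hHA X hX
    exact Extr.UU_sub_Fl c h1
  have h1 : H.card ≤ ((Fl G L q f).filter fun c => ¬ (UU G L q f c ≠ ∅)).card := by
    rw [← card_image_of_injOn hinj]
    refine card_le_card fun Y hY => ?_
    obtain ⟨X, hX, rfl⟩ := mem_image.1 hY
    obtain ⟨h1, h2⟩ := hℓ X (hA X hX)
    rw [mem_filter]
    refine ⟨?_, fun h => h h2⟩
    rcases h1 with h1 | h1
    · rw [h1]
      exact hFl X hX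
    · exact Extr.UU_sub_Fl X h1
  have h2 := card_filter_add_card_filter_not (s := Fl G L q f) (fun c => UU G L q f c ≠ ∅)
  omega

namespace Extr

variable (E : Extr G L q k f γ) (N : Num G L q k f γ a b R m)
include E N

theorem m2_bound (haR : a ≤ R + 1) : ∃ F1 F κ : ℕ, F1 + κ ≤ F ∧ F + 1 ≤ a ∧
    2 * a + b + R ≤ 2 * F1 + 2 * F + m * κ := by
  refine ⟨((Fl G L q f).filter fun c => UU G L q f c ≠ ∅).card, (Fl G L q f).card,
    ∑ c ∈ Ho G L q f, (La G L q f c).card, ?_, E.card_Fl N, ?_⟩
  · have := sum_La_le (G := G) (L := L) (q := q) (f := f)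
    omega
  have hlow : 2 * (a * (R * q + 1)) + a * (m * q) ≤
      ∑ c ∈ AA G L q f, (2 * ((VR G L f γ).filter fun y => c ∈ L y).card +
        ((VM G L q f γ).filter fun y => c ∈ L y).card) := by
    have d1 : ∑ c ∈ AA G L q f, ((VR G L f γ).filter fun y => c ∈ L y).card =
        ∑ y ∈ VR G L f γ, ((AA G L q f).filter fun c => c ∈ L y).card := by
      convert dc (AA G L q f) (VR G L f γ) fun c y => c ∈ L y
    have d2 : ∑ c ∈ AA G L q f, ((VM G L q f γ).filter fun y => c ∈ L y).card =
        ∑ y ∈ VM G L q f γ, ((AA G L q f).filter fun c => c ∈ L y).card := by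
      convert dc (AA G L q f) (VM G L q f γ) fun c y => c ∈ L y
    rw [sum_add_distrib, ← mul_sum, d1, d2]
    have h1 : ∀ y, a ≤ ((AA G L q f).filter fun c => c ∈ L y).card := by
      intro y
      have h2 := E.listA N y
      have h3 : L y ∩ AA G L q f = (AA G L q f).filter fun c => c ∈ L y := by
        ext c
        rw [mem_inter, mem_filter, and_comm]
      rwa [h3] at h2
    have h2 : a * (R * q + 1) ≤ ∑ y ∈ VR G L f γ, ((AA G L q f).filter fun c => c ∈ L y).card := by
      have := sum_le_sum (s := VR G L f γ) fun y _ => h1 y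
      rw [sum_const, smul_eq_mul, N.cR, mul_comm] at this
      exact this
    have h3 : a * (m * q) ≤ ∑ y ∈ VM G L q f γ, ((AA G L q f).filter fun c => c ∈ L y).card := by
      have := sum_le_sum (s := VM G L q f γ) fun y _ => h1 y
      rw [sum_const, smul_eq_mul, N.cM, mul_comm] at this
      exact this
    omega
  have hup : ∑ c ∈ AA G L q f, (2 * ((VR G L f γ).filter fun y => c ∈ L y).card +
        ((VM G L q f γ).filter fun y => c ∈ L y).card) ≤
      (b + R) * (VA G L q f).card + 2 * ((Fl G L q f).filter fun c => UU G L q f c ≠ ∅).card +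
        (2 * ∑ c ∈ Ho G L q f, (UU G L q f c).card +
          m * ∑ c ∈ Ho G L q f, (La G L q f c).card) := by
    have h0 : (VA G L q f).card = ∑ c ∈ Fl G L q f, (cls f c).card +
        ∑ c ∈ Ho G L q f, (cls f c).card := by
      have h1 : (VA G L q f).card = ∑ c ∈ AA G L q f, (cls f c).card := card_filter_cls f _
      rw [h1, ← sum_filter_add_sum_filter_not (AA G L q f) (fun c => ¬ Hole q f c)]
      simp only [not_not]
      rfl
    rw [← sum_filter_add_sum_filter_not (AA G L q f) (fun c => ¬ Hole q f c)]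
    simp only [not_not]
    have hF : ∑ c ∈ Fl G L q f, (2 * ((VR G L f γ).filter fun y => c ∈ L y).card +
        ((VM G L q f γ).filter fun y => c ∈ L y).card) ≤
        ∑ c ∈ Fl G L q f, ((b + R) * (cls f c).card + 2 * (if UU G L q f c ≠ ∅ then 1 else 0)) := by
      refine sum_le_sum fun c hc => ?_
      rw [mem_Fl] at hc
      by_cases h1 : UU G L q f c ≠ ∅
      · rw [if_pos h1]
        have h2 : ((VR G L f γ).filter fun y => c ∈ L y).card ≤ R * q + 1 := by
          rw [← N.cR]
          exact card_le_card (filter_subset _ _)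
        have h3 : ((VM G L q f γ).filter fun y => c ∈ L y).card ≤ m * q := by
          rw [← N.cM]
          exact card_le_card (filter_subset _ _)
        have h4 : q ≤ (cls f c).card := le_of_not_gt hc.2
        have h5 : (b + R) * q ≤ (b + R) * (cls f c).card := Nat.mul_le_mul_left _ h4
        have h6 : (b + R) * q = 2 * (R * q) + m * q := by
          rw [N.hm]
          ring
        omega
      · rw [if_neg h1]
        have h2 := E.bound_c N haR hc.1
        push Not at h1
        have h3 : La G L q f c = ∅ := by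
          rw [La, h1, image_empty]
        rw [h1, h3, card_empty] at h2
        omega
    have hH : ∑ c ∈ Ho G L q f, (2 * ((VR G L f γ).filter fun y => c ∈ L y).card +
        ((VM G L q f γ).filter fun y => c ∈ L y).card) ≤
        ∑ c ∈ Ho G L q f, ((b + R) * (cls f c).card + 2 * (UU G L q f c).card +
          m * (La G L q f c).card) :=
      sum_le_sum fun c hc => E.bound_c N haR (mem_Ho.1 hc).1
    have hF1 : ∑ c ∈ Fl G L q f, ((b + R) * (cls f c).card +
        2 * (if UU G L q f c ≠ ∅ then 1 else 0)) = (b + R) * ∑ c ∈ Fl G L q f, (cls f c).card +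
          2 * ((Fl G L q f).filter fun c => UU G L q f c ≠ ∅).card := by
      rw [sum_add_distrib, ← mul_sum, ← mul_sum, ← card_filter]
    have hH1 : ∑ c ∈ Ho G L q f, ((b + R) * (cls f c).card + 2 * (UU G L q f c).card +
          m * (La G L q f c).card) = (b + R) * ∑ c ∈ Ho G L q f, (cls f c).card +
          2 * ∑ c ∈ Ho G L q f, (UU G L q f c).card +
          m * ∑ c ∈ Ho G L q f, (La G L q f c).card := by
      rw [sum_add_distrib, sum_add_distrib, ← mul_sum, ← mul_sum, ← mul_sum]
    rw [hF1] at hF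
    rw [hH1] at hH
    rw [h0, mul_add]
    have := add_le_add hF hH
    refine this.trans ?_
    omega
  have h1 := N.cA
  have h2 : (b + R) * ((VA G L q f).card + 1) ≤ (b + R) * (a * q) := Nat.mul_le_mul_left _ h1
  have h3 : (b + R) * (a * q) = 2 * (a * (R * q)) + a * (m * q) := by
    rw [N.hm]
    ring
  have h4 : a * (R * q + 1) = a * (R * q) + a := by ring
  have h5 : (b + R) * ((VA G L q f).card + 1) = (b + R) * (VA G L q f).card + (b + R) := by ring
  have h6 := sum_UU_le (G := G) (L := L) (q := q) (f := f)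
  omega

theorem m2_false (haR : a ≤ R + 1) (hk9 : k ≤ 9) : False := by
  obtain ⟨F1, F, κ, h1, h2, h3⟩ := E.m2_bound N haR
  have h4 := N.hm
  have h5 := N.hk
  have h8 := N.R1
  have h6 : κ ≤ 4 := by omega
  have h7 : m ≤ 7 := by omega
  interval_cases κ <;> interval_cases m <;> omega

end Extr

end Pool.Agent.Helper80.KP
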