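import Mathlib

/-!
Equitable list colouring (MP_c0e710_co): colourings, moves and shifting along paths.
-/

open Classical

namespace Pool.Agent.Helper80.KP

open Finset

variable {V C : Type} [Fintype V] [Fintype C]

/-- `f` is a proper colouring from the lists `L` -/
def Proper (G : SimpleGraph V) (L : V → Finset C) (f : V → C) : Prop :=
  (∀ v, f v ∈ L v) ∧ ∀ v w, G.Adj v w → f v ≠ f w

/-- the class of the colour `c` -/
noncomputable def cls (f : V → C) (c : C) : Finset V := univ.filter fun v => f v = c

theorem mem_cls {f : V → C} {c : C} {v : V} : v ∈ cls f c ↔ f v = c := by simp [cls]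

/-- `v` can be moved to the class of `d` -/
def Mv (G : SimpleGraph V) (L : V → Finset C) (f : V → C) (v : V) (d : C) : Prop :=
  d ∈ L v ∧ d ≠ f v ∧ ∀ w, G.Adj v w → f w ≠ d

/-- some vertex of the class of `c` can be moved to the class of `d` -/
def Arc (G : SimpleGraph V) (L : V → Finset C) (f : V → C) (c d : C) : Prop :=
  ∃ v, f v = c ∧ Mv G L f v d

variable {G : SimpleGraph V} {L : V → Finset C} {f g : V → C}

theorem proper_update (hf : Proper G L f) {v : V} {d : C} (h : Mv G L f v d) :
    Proper G L (Function.update f v d) := by
  refine ⟨fun w => ?_, fun w u hwu => ?_⟩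
  · by_cases hw : w = v
    · subst hw
      rw [Function.update_self]
      exact h.1
    · rw [Function.update_of_ne hw]
      exact hf.1 w
  · by_cases hw : w = v
    · subst hw
      rw [Function.update_self, Function.update_of_ne hwu.ne']
      exact (h.2.2 u hwu).symm
    · by_cases hu : u = v
      · subst hu
        rw [Function.update_self, Function.update_of_ne hw]
        exact h.2.2 w hwu.symm
      · rw [Function.update_of_ne hw, Function.update_of_ne hu]
        exact hf.2 w u hwu

theorem card_cls_update (f : V → C) {v : V} {d : C} (h : d ≠ f v) (e : C) :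
    (cls (Function.update f v d) e).card + (if e = f v then 1 else 0) =
      (cls f e).card + (if e = d then 1 else 0) := by
  by_cases h1 : e = f v
  · have h2 : e ≠ d := fun h3 => h (h3 ▸ h1)
    rw [if_pos h1, if_neg h2, add_zero]
    have h3 : cls (Function.update f v d) e = (cls f e).erase v := by
      ext w
      rw [mem_erase, mem_cls, mem_cls]
      by_cases hw : w = v
      · subst hw
        rw [Function.update_self]
        simp [h2.symm]
      · rw [Function.update_of_ne hw]
        simp [hw]
    rw [h3, card_erase_add_one (mem_cls.2 h1.symm)]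
  · rw [if_neg h1, add_zero]
    by_cases h2 : e = d
    · rw [if_pos h2]
      have h3 : cls (Function.update f v d) e = insert v (cls f e) := by
        ext w
        rw [mem_insert, mem_cls, mem_cls]
        by_cases hw : w = v
        · subst hw
          rw [Function.update_self]
          simp [h2]
        · rw [Function.update_of_ne hw]
          simp [hw]
      rw [h3, card_insert_of_notMem]
      rw [mem_cls]
      exact fun h => h1 h.symm
    · rw [if_neg h2, add_zero]
      have h3 : cls (Function.update f v d) e = cls f e := by
        ext w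
        rw [mem_cls, mem_cls]
        by_cases hw : w = v
        · subst hw
          rw [Function.update_self]
          exact ⟨fun h => absurd h.symm h2, fun h => absurd h.symm h1⟩
        · rw [Function.update_of_ne hw]
      rw [h3]

/-- arcs persist if the vertices of the first class stay and the second class gets no new vertex -/
theorem Arc.mono {c d : C} (h : Arc G L f c d) (h1 : ∀ v, f v = c → g v = c)
    (h2 : ∀ v, g v = d → f v = d) : Arc G L g c d := by
  obtain ⟨v, hv, hd, hne, hn⟩ := h
  have hg := h1 v hv
  refine ⟨v, hg, hd, ?_, fun w hw h3 => hn w hw (h2 w h3)⟩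
  rw [hg, ← hv]
  exact hne

/-- paths persist -/
theorem chain_mono : ∀ (l : List C) (c : C), List.IsChain (Arc G L f) (c :: l) → (c :: l).Nodup →
    (∀ v, f v = c → g v = c) → (∀ e ∈ l, ∀ v, g v = e ↔ f v = e) →
    List.IsChain (Arc G L g) (c :: l) := by
  intro l
  induction l with
  | nil =>
    intro c _ _ _ _
    exact List.isChain_singleton c
  | cons d l ih =>
    intro c hc hn h1 h2
    rw [List.isChain_cons_cons] at hc ⊢
    refine ⟨hc.1.mono h1 fun v hv => (h2 d (List.mem_cons_self) v).1 hv, ?_⟩
    refine ih d hc.2 (List.nodup_cons.1 hn).2 (fun v hv => (h2 d List.mem_cons_self v).2 hv) ?_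
    intro e he
    exact h2 e (List.mem_cons_of_mem _ he)

/-- shifting along a path -/
theorem shift : ∀ (l : List C) (c : C) (f : V → C), Proper G L f →
    List.IsChain (Arc G L f) (c :: l) → (c :: l).Nodup →
    ∃ f', Proper G L f' ∧ (∀ e, (cls f' e).card + (if e = c then 1 else 0) =
        (cls f e).card + (if e = (c :: l).getLast (List.cons_ne_nil _ _) then 1 else 0)) ∧
      (∀ v, f v ∉ c :: l → f' v = f v) ∧ (∀ v, f v ∈ c :: l → f' v ∈ c :: l) ∧
      (∀ v, f v = (c :: l).getLast (List.cons_ne_nil _ _) → f' v = f v) := by
  intro l
  induction l with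
  | nil =>
    intro c f hf _ _
    exact ⟨f, hf, fun e => rfl, fun v _ => rfl, fun v h => h, fun v _ => rfl⟩
  | cons d l ih =>
    intro c f hf hc hn
    rw [List.isChain_cons_cons] at hc
    obtain ⟨⟨w, hw, hm⟩, hc2⟩ := hc
    have hn' := List.nodup_cons.1 hn
    have hcd : c ≠ d := fun h => hn'.1 (h ▸ List.mem_cons_self)
    set f1 := Function.update f w d with hf1
    have hp1 : Proper G L f1 := proper_update hf hm
    have hch : List.IsChain (Arc G L f1) (d :: l) := by
      refine chain_mono l d hc2 hn'.2 ?_ ?_
      · intro v hv
        by_cases hvw : v = w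
        · rw [hvw, hf1, Function.update_self]
        · rw [hf1, Function.update_of_ne hvw, hv]
      · intro e he v
        have hed : e ≠ d := fun h => (List.nodup_cons.1 hn'.2).1 (h ▸ he)
        have hec : e ≠ c := fun h => hn'.1 (h ▸ List.mem_cons_of_mem _ he)
        by_cases hvw : v = w
        · rw [hvw, hf1, Function.update_self, hw]
          exact ⟨fun h => absurd h.symm hed, fun h => absurd h.symm hec⟩
        · rw [hf1, Function.update_of_ne hvw]
    obtain ⟨f', h1, h2, h3, h4, h5⟩ := ih d f1 hp1 hch hn'.2
    have hlast : (c :: d :: l).getLast (List.cons_ne_nil _ _) =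
        (d :: l).getLast (List.cons_ne_nil _ _) := List.getLast_cons _
    have hwne : f w ≠ (d :: l).getLast (List.cons_ne_nil _ _) := by
      intro h
      apply hn'.1
      rw [← hw, h]
      exact List.getLast_mem _
    refine ⟨f', h1, fun e => ?_, fun v hv => ?_, fun v hv => ?_, fun v hv => ?_⟩
    · rw [hlast]
      have a1 := h2 e
      have a2 := card_cls_update f (v := w) (d := d) hm.2.1 e
      rw [← hf1, hw] at a2
      omega
    · have hvw : v ≠ w := by
        rintro rfl
        exact hv (hw ▸ List.mem_cons_self)
      have e1 : f1 v = f v := by rw [hf1, Function.update_of_ne hvw]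
      rw [h3 v, e1]
      rw [e1]
      exact fun h => hv (List.mem_cons_of_mem _ h)
    · by_cases hvw : v = w
      · refine List.mem_cons_of_mem _ (h4 v ?_)
        rw [hvw, hf1, Function.update_self]
        exact List.mem_cons_self
      · have e1 : f1 v = f v := by rw [hf1, Function.update_of_ne hvw]
        rcases List.mem_cons.1 hv with h | h
        · by_cases h6 : f1 v ∈ d :: l
          · exact List.mem_cons_of_mem _ (h4 v h6)
          · rw [h3 v h6, e1, h]
            exact List.mem_cons_self
        · exact List.mem_cons_of_mem _ (h4 v (e1 ▸ h))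
    · rw [hlast] at hv
      have hvw : v ≠ w := by
        rintro rfl
        exact hwne hv
      have e1 : f1 v = f v := by rw [hf1, Function.update_of_ne hvw]
      rw [h5 v (e1 ▸ hv), e1]

/-- a simple path from a reachability relation -/
theorem exists_path {α : Type} {r : α → α → Prop} {a b : α} (h : Relation.ReflTransGen r a b) :
    ∃ l, List.IsChain r (a :: l) ∧ (a :: l).Nodup ∧
      (a :: l).getLast (List.cons_ne_nil _ _) = b := by
  induction h using Relation.ReflTransGen.head_induction_on with
  | refl => exact ⟨[], List.isChain_singleton b, List.nodup_singleton b, rfl⟩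
  | @head a a' hr _ ih =>
    obtain ⟨l, h1, h2, h3⟩ := ih
    by_cases ha : a ∈ a' :: l
    · obtain ⟨s, t, hst⟩ := List.append_of_mem ha
      refine ⟨t, ?_, ?_, ?_⟩
      · rw [hst] at h1
        exact (List.isChain_append.1 h1).2.1
      · rw [hst] at h2
        exact (List.nodup_append.1 h2).2.1
      · rw [← h3]
        have : (a' :: l).getLast (List.cons_ne_nil _ _) =
            (s ++ a :: t).getLast (by simp) := by
          congr 1
        rw [this, List.getLast_append_of_ne_nil _ (List.cons_ne_nil _ _)]
    · refine ⟨a' :: l, List.isChain_cons_cons.2 ⟨hr, h1⟩, List.nodup_cons.2 ⟨ha, h2⟩, ?_⟩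
      rw [List.getLast_cons (List.cons_ne_nil _ _), h3]

end Pool.Agent.Helper80.KP
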