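import Pool.Agent.Helper80.KP.Shift

/-!
Equitable list colouring (MP_c0e710_co): extremal nearly equitable colourings.
-/

open Classical

namespace Pool.Agent.Helper80.KP

open Finset Relation

variable {V C : Type} [Fintype V] [Fintype C]

/-- the class of `c` has fewer than `q` vertices -/
def Hole (q : ℕ) (f : V → C) (c : C) : Prop := (cls f c).card < q

/-- the colours from which a class with fewer than `q` vertices can be reached -/
noncomputable def AA (G : SimpleGraph V) (L : V → Finset C) (q : ℕ) (f : V → C) : Finset C :=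
  univ.filter fun c => ∃ h, Hole q f h ∧ ReflTransGen (Arc G L f) c h

/-- the colours that can be reached from `γ` -/
noncomputable def RR (G : SimpleGraph V) (L : V → Finset C) (f : V → C) (γ : C) : Finset C :=
  univ.filter fun c => ReflTransGen (Arc G L f) γ c

/-- nearly equitable colourings -/
def NE (G : SimpleGraph V) (L : V → Finset C) (q : ℕ) (f : V → C) (γ : C) : Prop :=
  Proper G L f ∧ (cls f γ).card = q + 1 ∧ ∀ c, c ≠ γ → (cls f c).card ≤ q

/-- an extremal nearly equitable colouring of a graph without equitable colouring -/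
structure Extr (G : SimpleGraph V) (L : V → Finset C) (q k : ℕ) (f : V → C) (γ : C) : Prop where
  ne : NE G L q f γ
  noeq : ∀ g, Proper G L g → ∃ c, q < (cls g c).card
  max : ∀ g δ, NE G L q g δ → (AA G L q g).card ≤ (AA G L q f).card
  deg : ∀ v, G.degree v + 1 ≤ k
  lst : ∀ v, (L v).card = k
  tot : Fintype.card V ≤ k * q

/-- steps inside `A` avoiding `c` -/
def Step (G : SimpleGraph V) (L : V → Finset C) (q : ℕ) (f : V → C) (c e e' : C) : Prop :=
  Arc G L f e e' ∧ e' ∈ AA G L q f ∧ e' ≠ c

/-- reachability inside `A` avoiding `c` -/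
def RA (G : SimpleGraph V) (L : V → Finset C) (q : ℕ) (f : V → C) (c : C) : C → C → Prop :=
  ReflTransGen (Step G L q f c)

/-- the classes of `A` which can reach a hole only through `c` -/
noncomputable def UU (G : SimpleGraph V) (L : V → Finset C) (q : ℕ) (f : V → C) (c : C) : Finset C :=
  (AA G L q f).filter fun X => X ≠ c ∧ ∀ h, Hole q f h → ¬ RA G L q f c X h

/-- `z` is the only neighbour of `y` in its class, whose colour is in the list of `y` -/
def Solo (G : SimpleGraph V) (L : V → Finset C) (f : V → C) (y z : V) : Prop :=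
  G.Adj y z ∧ f z ∈ L y ∧ ∀ w, G.Adj y w → f w = f z → w = z

variable {G : SimpleGraph V} {L : V → Finset C} {q k : ℕ} {f g : V → C} {γ : C}

theorem mem_AA {c : C} : c ∈ AA G L q f ↔ ∃ h, Hole q f h ∧ ReflTransGen (Arc G L f) c h := by
  simp [AA]

theorem mem_RR {c : C} : c ∈ RR G L f γ ↔ ReflTransGen (Arc G L f) γ c := by
  simp [RR]

theorem mem_UU {c X : C} : X ∈ UU G L q f c ↔
    X ∈ AA G L q f ∧ X ≠ c ∧ ∀ h, Hole q f h → ¬ RA G L q f c X h := by
  simp [UU]

theorem AA_of_arc {c d : C} (h : Arc G L f c d) (hd : d ∈ AA G L q f) : c ∈ AA G L q f := by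
  obtain ⟨e, he, hr⟩ := mem_AA.1 hd
  exact mem_AA.2 ⟨e, he, ReflTransGen.head h hr⟩

theorem AA_of_hole {c : C} (h : Hole q f c) : c ∈ AA G L q f := mem_AA.2 ⟨c, h, .refl⟩

theorem AA_of_reach {c d : C} (h : ReflTransGen (Arc G L f) c d) (hd : d ∈ AA G L q f) :
    c ∈ AA G L q f := by
  obtain ⟨e, he, hr⟩ := mem_AA.1 hd
  exact mem_AA.2 ⟨e, he, h.trans hr⟩

/-- the elements of a path are reachable -/
theorem chain_reach {r : C → C → Prop} : ∀ (l : List C) (c : C), List.IsChain r (c :: l) →
    ∀ e ∈ c :: l, ReflTransGen r c e := by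
  intro l
  induction l with
  | nil =>
    intro c _ e he
    rw [List.mem_singleton] at he
    rw [he]
  | cons d l ih =>
    intro c hc e he
    rw [List.isChain_cons_cons] at hc
    rcases List.mem_cons.1 he with h | h
    · rw [h]
    · exact ReflTransGen.head hc.1 (ih d hc.2 e h)

theorem chain_reach_last {r : C → C → Prop} : ∀ (l : List C) (c : C), List.IsChain r (c :: l) →
    ∀ e ∈ c :: l, ReflTransGen r e ((c :: l).getLast (List.cons_ne_nil _ _)) := by
  intro l
  induction l with
  | nil =>
    intro c _ e he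
    rw [List.mem_singleton] at he
    rw [he]
    exact .refl
  | cons d l ih =>
    intro c hc e he
    have hc' := List.isChain_cons_cons.1 hc
    rcases List.mem_cons.1 he with h | h
    · rw [h]
      exact chain_reach _ _ hc _ (List.getLast_mem _)
    · rw [List.getLast_cons (List.cons_ne_nil _ _)]
      exact ih d hc'.2 e h

/-- a path in `A` avoiding `c` from a path -/
theorem chain_RA {c : C} : ∀ (l : List C) (X : C), List.IsChain (Arc G L f) (X :: l) →
    (∀ e ∈ l, e ∈ AA G L q f) → c ∉ l → ∀ e ∈ X :: l, RA G L q f c X e := by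
  intro l X h1 h2 h3
  have h4 : List.IsChain (Step G L q f c) (X :: l) := by
    induction l generalizing X with
    | nil => exact List.isChain_singleton X
    | cons d l ih =>
      rw [List.isChain_cons_cons] at h1 ⊢
      refine ⟨⟨h1.1, h2 d List.mem_cons_self, fun h => h3 (h ▸ List.mem_cons_self)⟩, ?_⟩
      exact ih d h1.2 (fun e he => h2 e (List.mem_cons_of_mem _ he))
        fun h => h3 (List.mem_cons_of_mem _ h)
  exact chain_reach l X h4

theorem RA_arc {c X e : C} (h : RA G L q f c X e) : ReflTransGen (Arc G L f) X e := by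
  induction h with
  | refl => exact .refl
  | tail _ h2 ih => exact ih.tail h2.1

theorem RA_ne {c X e : C} (h : RA G L q f c X e) (hX : X ≠ c) : e ≠ c := by
  induction h with
  | refl => exact hX
  | tail _ h2 _ => exact h2.2.2

theorem RA_mem {c X e : C} (h : RA G L q f c X e) (hX : X ∈ AA G L q f) : e ∈ AA G L q f := by
  induction h with
  | refl => exact hX
  | tail _ h2 _ => exact h2.2.1

/-- a path of `A` from `c` to a hole -/
theorem exists_hole_path {c : C} (hc : c ∈ AA G L q f) : ∃ (l : List C) (h : C),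
    List.IsChain (Arc G L f) (c :: l) ∧ (c :: l).Nodup ∧
    (c :: l).getLast (List.cons_ne_nil _ _) = h ∧ Hole q f h ∧ ∀ e ∈ c :: l, e ∈ AA G L q f := by
  obtain ⟨h, hh, hr⟩ := mem_AA.1 hc
  obtain ⟨l, h1, h2, h3⟩ := exists_path hr
  refine ⟨l, h, h1, h2, h3, hh, fun e he => ?_⟩
  exact mem_AA.2 ⟨h, hh, h3 ▸ chain_reach_last l c h1 e he⟩

/-- if `X` lies in `U_c` then `c` reaches a hole avoiding `X` -/
theorem reach_avoid {c X : C} (hc : c ∈ AA G L q f) (hX : X ∈ UU G L q f c) :
    ∃ h, Hole q f h ∧ RA G L q f X c h := by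
  obtain ⟨l, h, h1, h2, h3, h4, h5⟩ := exists_hole_path hc
  rw [mem_UU] at hX
  by_cases hXl : X ∈ l
  · exfalso
    obtain ⟨s, t, hst⟩ := List.append_of_mem hXl
    have h6 : List.IsChain (Arc G L f) (X :: t) := by
      rw [hst, ← List.cons_append] at h1
      exact (List.isChain_append.1 h1).2.1
    have h7 : c ∉ t := fun h => (List.nodup_cons.1 h2).1 (by
      rw [hst]
      exact List.mem_append_right _ (List.mem_cons_of_mem _ h))
    have h8 : (X :: t).getLast (List.cons_ne_nil _ _) = h := by
      rw [← h3]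
      have e1 : (c :: l).getLast (List.cons_ne_nil _ _) =
          ((c :: s) ++ X :: t).getLast (by simp) := by
        congr 1
        rw [hst, List.cons_append]
      rw [e1, List.getLast_append_of_ne_nil _ (List.cons_ne_nil _ _)]
    refine hX.2.2 h h4 ?_
    have h9 := chain_RA (c := c) (q := q) t X h6 (fun e he => h5 e (by
      rw [hst]
      exact List.mem_cons_of_mem _ (List.mem_append_right _ (List.mem_cons_of_mem _ he)))) h7
      ((X :: t).getLast (List.cons_ne_nil _ _)) (List.getLast_mem _)
    rwa [h8] at h9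
  · refine ⟨h, h4, ?_⟩
    have h9 := chain_RA (c := X) (q := q) l c h1 (fun e he => h5 e (List.mem_cons_of_mem _ he)) hXl
      ((c :: l).getLast (List.cons_ne_nil _ _)) (List.getLast_mem _)
    rwa [h3] at h9

theorem UU_of_RA {c X e : C} (hX : X ∈ UU G L q f c) (h : RA G L q f c X e) :
    e ∈ UU G L q f c := by
  rw [mem_UU] at hX ⊢
  exact ⟨RA_mem h hX.1, RA_ne h hX.2.1, fun h' hh hr => hX.2.2 h' hh (h.trans hr)⟩

/-- from a class of `U_c` one reaches a class with an arc to `c` -/
theorem UU_reach {c X : C} (hX : X ∈ UU G L q f c) :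
    ∃ e, RA G L q f c X e ∧ Arc G L f e c := by
  have hX' := mem_UU.1 hX
  obtain ⟨l, h, h1, h2, h3, h4, h5⟩ := exists_hole_path hX'.1
  by_cases hc : c ∈ l
  · obtain ⟨s, t, hst⟩ := List.append_of_mem hc
    have hs : c ∉ s := by
      intro h'
      have h6 := (List.nodup_cons.1 h2).2
      rw [hst] at h6
      exact (List.nodup_append.1 h6).2.2 c h' c List.mem_cons_self rfl
    rw [hst, ← List.cons_append, List.isChain_append] at h1
    refine ⟨(X :: s).getLast (List.cons_ne_nil _ _), ?_, ?_⟩
    · exact chain_RA (c := c) (q := q) s X h1.1 (fun e he => h5 e (by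
        rw [hst]
        exact List.mem_cons_of_mem _ (List.mem_append_left _ he))) hs _ (List.getLast_mem _)
    · refine h1.2.2 _ ?_ c ?_
      · rw [List.getLast?_eq_getLast_of_ne_nil (List.cons_ne_nil _ _)]
        rfl
      · rfl
  · exfalso
    refine hX'.2.2 h h4 ?_
    have h9 := chain_RA (c := c) (q := q) l X h1 (fun e he => h5 e (List.mem_cons_of_mem _ he)) hc
      ((X :: l).getLast (List.cons_ne_nil _ _)) (List.getLast_mem _)
    rwa [h3] at h9

namespace Extr

variable (E : Extr G L q k f γ)
include E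

theorem contra {h : C} (hg : Proper G L g) (hh : Hole q f h)
    (hs : ∀ e, (cls g e).card + (if e = γ then 1 else 0) =
      (cls f e).card + (if e = h then 1 else 0)) : False := by
  obtain ⟨e, he⟩ := E.noeq g hg
  have h1 := hs e
  by_cases h2 : e = γ
  · subst h2
    have h3 := E.ne.2.1
    have h4 : e ≠ h := by
      rintro rfl
      unfold Hole at hh
      omega
    rw [if_pos rfl, if_neg h4] at h1
    omega
  · rw [if_neg h2] at h1
    have h3 := E.ne.2.2 e h2
    by_cases h4 : e = h
    · subst h4
      unfold Hole at hh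
      rw [if_pos rfl] at h1
      omega
    · rw [if_neg h4] at h1
      omega

theorem gamma : γ ∉ AA G L q f := by
  intro h
  obtain ⟨l, h', h1, h2, h3, h4, _⟩ := exists_hole_path h
  obtain ⟨g, g1, g2, _⟩ := shift l γ f E.ne.1 h1 h2
  refine E.contra g1 h4 fun e => ?_
  rw [g2 e, h3]

theorem RR_not {c : C} (hc : c ∈ RR G L f γ) : c ∉ AA G L q f := fun h =>
  E.gamma (AA_of_reach (mem_RR.1 hc) h)

omit E in
theorem RR_of_arc {c d : C} (hc : c ∈ RR G L f γ) (h : Arc G L f c d) : d ∈ RR G L f γ :=
  mem_RR.2 ((mem_RR.1 hc).tail h)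

/-- the auxiliary colouring: `z` to `X`, `y` to the class of `z` -/
theorem swap {y z : V} {X : C} (hy : f y = γ) (hz : f z ∈ AA G L q f) (hs : Solo G L f y z)
    (hX : X ∈ AA G L q f) (hm : Mv G L f z X) : ∃ f1 : V → C, Proper G L f1 ∧
    f1 y = f z ∧ f1 z = X ∧ (∀ v, v ≠ y → v ≠ z → f1 v = f v) ∧
    ∀ e, (cls f1 e).card + (if e = γ then 1 else 0) = (cls f e).card + (if e = X then 1 else 0) := by
  have hyz : y ≠ z := hs.1.ne
  have hzγ : f z ≠ γ := fun h => E.gamma (h ▸ hz)
  set f' := Function.update f z X with hf'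
  have hp' : Proper G L f' := proper_update E.ne.1 hm
  have ey : f' y = γ := by rw [hf', Function.update_of_ne hyz, hy]
  have hm' : Mv G L f' y (f z) := by
    refine ⟨hs.2.1, by rw [ey]; exact hzγ, fun w hw => ?_⟩
    by_cases hwz : w = z
    · rw [hwz, hf', Function.update_self]
      exact hm.2.1
    · rw [hf', Function.update_of_ne hwz]
      exact fun h => hwz (hs.2.2 w hw h)
  refine ⟨Function.update f' y (f z), proper_update hp' hm', Function.update_self _ _ _, ?_, ?_, ?_⟩
  · rw [Function.update_of_ne hyz.symm, hf', Function.update_self]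
  · intro v h1 h2
    rw [Function.update_of_ne h1, hf', Function.update_of_ne h2]
  · intro e
    have a1 := card_cls_update f (v := z) (d := X) hm.2.1 e
    have a2 := card_cls_update f' (v := y) (d := f z) hm'.2.1 e
    rw [← hf'] at a1
    rw [ey] at a2
    omega

theorem T2a_base {y z : V} {X : C} (hy : f y = γ) (hz : f z ∈ AA G L q f) (hs : Solo G L f y z)
    (hX : X ∈ AA G L q f) (hm : Mv G L f z X) (h : C) (hh : Hole q f h) :
    ¬ RA G L q f (f z) X h := by
  intro hr
  obtain ⟨l, h1, h2, h3⟩ := exists_path hr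
  have hmem : ∀ e ∈ X :: l, e ∈ AA G L q f ∧ e ≠ f z := by
    intro e he
    have h4 := chain_reach l X h1 e he
    exact ⟨RA_mem h4 hX, RA_ne h4 hm.2.1⟩
  have hch : List.IsChain (Arc G L f) (X :: l) := h1.imp fun _ _ h => h.1
  obtain ⟨f1, p1, p2, p3, p4, p5⟩ := E.swap hy hz hs hX hm
  have hγ : ∀ e ∈ X :: l, e ≠ γ := fun e he h4 => E.gamma (h4 ▸ (hmem e he).1)
  have hch1 : List.IsChain (Arc G L f1) (X :: l) := by
    refine chain_mono l X hch h2 ?_ ?_
    · intro v hv
      rw [p4 v, hv]
      · rintro rfl
        exact hγ X List.mem_cons_self (hv ▸ hy)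
      · rintro rfl
        exact hm.2.1 hv.symm
    · intro e he v
      have he' := List.mem_cons_of_mem X he
      by_cases hvy : v = y
      · rw [hvy, p2, hy]
        exact ⟨fun h => absurd h.symm (hmem e he').2, fun h => absurd h.symm (hγ e he')⟩
      · by_cases hvz : v = z
        · rw [hvz, p3]
          exact ⟨fun h => absurd (h ▸ he) (List.nodup_cons.1 h2).1,
            fun h => absurd h.symm (hmem e he').2⟩
        · rw [p4 v hvy hvz]
  obtain ⟨g, g1, g2, _⟩ := shift l X f1 p1 hch1 h2
  refine E.contra g1 hh fun e => ?_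
  have a1 := g2 e
  have a2 := p5 e
  rw [h3] at a1
  omega

theorem T2b_base {y z w : V} {X : C} (hy : f y = γ) (hz : f z ∈ AA G L q f) (hs : Solo G L f y z)
    (hX : X ∈ AA G L q f) (hm : Mv G L f z X) (hr : RA G L q f (f z) X (f w))
    (hw : Mv G L f w (f z)) : G.Adj y w := by
  by_contra hyw
  obtain ⟨l, h1, h2, h3⟩ := exists_path hr
  have hmem : ∀ e ∈ X :: l, e ∈ AA G L q f ∧ e ≠ f z ∧ RA G L q f (f z) X e := by
    intro e he
    have h4 := chain_reach l X h1 e he
    exact ⟨RA_mem h4 hX, RA_ne h4 hm.2.1, h4⟩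
  have hch : List.IsChain (Arc G L f) (X :: l) := h1.imp fun _ _ h => h.1
  obtain ⟨f1, p1, p2, p3, p4, p5⟩ := E.swap hy hz hs hX hm
  have hγ : ∀ e ∈ X :: l, e ≠ γ := fun e he h4 => E.gamma (h4 ▸ (hmem e he).1)
  have hch1 : List.IsChain (Arc G L f1) (X :: l) := by
    refine chain_mono l X hch h2 ?_ ?_
    · intro v hv
      rw [p4 v, hv]
      · rintro rfl
        exact hγ X List.mem_cons_self (hv ▸ hy)
      · rintro rfl
        exact hm.2.1 hv.symm
    · intro e he v
      have he' := List.mem_cons_of_mem X he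
      by_cases hvy : v = y
      · rw [hvy, p2, hy]
        exact ⟨fun h => absurd h.symm (hmem e he').2.1, fun h => absurd h.symm (hγ e he')⟩
      · by_cases hvz : v = z
        · rw [hvz, p3]
          exact ⟨fun h => absurd (h ▸ he) (List.nodup_cons.1 h2).1,
            fun h => absurd h.symm (hmem e he').2.1⟩
        · rw [p4 v hvy hvz]
  obtain ⟨f2, g1, g2, g3, g4, g5⟩ := shift l X f1 p1 hch1 h2
  have hwl : f w ∈ X :: l := by
    rw [← h3]
    exact List.getLast_mem _
  have hwy : w ≠ y := by
    rintro rfl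
    exact hγ _ hwl hy
  have hwz : w ≠ z := by
    rintro rfl
    exact (hmem _ hwl).2.1 rfl
  have e1 : f1 w = f w := p4 w hwy hwz
  have e2 : f2 w = f w := by rw [g5 w (by rw [e1, h3]), e1]
  -- classes outside the path
  have hout : ∀ e, e ∉ X :: l → ∀ v, f2 v = e ↔ f1 v = e := by
    intro e he v
    by_cases h6 : f1 v ∈ X :: l
    · have h7 := g4 v h6
      exact ⟨fun h => absurd (h ▸ h7) he, fun h => absurd (h ▸ h6) he⟩
    · rw [g3 v h6]
  have hcl : f z ∉ X :: l := fun h => (hmem _ h).2.1 rfl
  have hm2 : Mv G L f2 w (f z) := by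
    refine ⟨hw.1, by rw [e2]; exact hw.2.1, fun u hu h6 => ?_⟩
    rw [hout _ hcl] at h6
    by_cases huy : u = y
    · exact hyw (huy ▸ hu.symm)
    · by_cases huz : u = z
      · rw [huz, p3] at h6
        exact hm.2.1 h6
      · rw [p4 u huy huz] at h6
        exact hw.2.2 u hu h6
  set f3 := Function.update f2 w (f z) with hf3
  have hp3 : Proper G L f3 := proper_update g1 hm2
  have hs3 : ∀ e, (cls f3 e).card + (if e = γ then 1 else 0) =
      (cls f e).card + (if e = f z then 1 else 0) := by
    intro e
    have a1 := g2 e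
    have a2 := p5 e
    have a3 := card_cls_update f2 (v := w) (d := f z) hm2.2.1 e
    rw [h3] at a1
    rw [← hf3, e2] at a3
    omega
  obtain ⟨l', h', c1, c2, c3, c4, c5⟩ := exists_hole_path hz
  rcases l' with _ | ⟨Y, l'⟩
  · have : f z = h' := c3
    exact E.contra hp3 c4 (this ▸ hs3)
  · have c1' := List.isChain_cons_cons.1 c1
    have c2' := List.nodup_cons.1 c2
    -- classes of the second path avoid the first one
    have hdis : ∀ e ∈ Y :: l', e ∉ X :: l ∧ RA G L q f (f z) e h' := by
      intro e he
      have h6 : RA G L q f (f z) e h' := by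
        obtain ⟨s, t, hst⟩ := List.append_of_mem he
        have h7 : List.IsChain (Arc G L f) (e :: t) := by
          have := c1'.2
          rw [hst] at this
          exact (List.isChain_append.1 this).2.1
        have h8 : f z ∉ t := fun h => c2'.1 (by
          rw [hst]
          exact List.mem_append_right _ (List.mem_cons_of_mem _ h))
        have h9 := chain_RA (c := f z) (q := q) t e h7 (fun e' he' => c5 e' (by
          rw [hst]
          exact List.mem_cons_of_mem _ (List.mem_append_right _ (List.mem_cons_of_mem _ he')))) h8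
          ((e :: t).getLast (List.cons_ne_nil _ _)) (List.getLast_mem _)
        have h10 : (e :: t).getLast (List.cons_ne_nil _ _) = h' := by
          rw [← c3]
          have e3 : (f z :: Y :: l').getLast (List.cons_ne_nil _ _) =
              ((f z :: s) ++ e :: t).getLast (by simp) := by
            congr 1
            rw [hst, List.cons_append]
          rw [e3, List.getLast_append_of_ne_nil _ (List.cons_ne_nil _ _)]
        rwa [h10] at h9
      refine ⟨fun h7 => ?_, h6⟩
      exact E.T2a_base hy hz hs hX hm h' c4 ((hmem e h7).2.2.trans h6)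
    have hcls : ∀ e ∈ Y :: l', ∀ v, f3 v = e ↔ f v = e := by
      intro e he v
      have hez : e ≠ f z := fun h => c2'.1 (h ▸ he)
      have heγ : e ≠ γ := fun h => E.gamma (h ▸ c5 e (List.mem_cons_of_mem _ he))
      have heX : e ∉ X :: l := (hdis e he).1
      by_cases hvw : v = w
      · rw [hvw, hf3, Function.update_self]
        exact ⟨fun h => absurd h.symm hez, fun h => absurd (h ▸ hwl) heX⟩
      · rw [hf3, Function.update_of_ne hvw, hout e heX]
        by_cases hvy : v = y
        · rw [hvy, p2, hy]
          exact ⟨fun h => absurd h.symm hez, fun h => absurd h.symm heγ⟩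
        · by_cases hvz : v = z
          · rw [hvz, p3]
            exact ⟨fun h => absurd (h ▸ List.mem_cons_self) heX, fun h => absurd h.symm hez⟩
          · rw [p4 v hvy hvz]
    have hch3 : List.IsChain (Arc G L f3) (f z :: Y :: l') := by
      rw [List.isChain_cons_cons]
      constructor
      · obtain ⟨u, hu, hmu⟩ := c1'.1
        have hYl := List.mem_cons_self (a := Y) (l := l')
        have huz : u ≠ z := by
          rintro rfl
          exact E.T2a_base hy hz hs (c5 Y (List.mem_cons_of_mem _ hYl)) hmu h' c4 (hdis Y hYl).2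
        have huy : u ≠ y := by
          rintro rfl
          exact E.gamma (hy ▸ hu ▸ hz)
        have huw : u ≠ w := by
          rintro rfl
          exact (hmem _ hwl).2.1 hu
        have hu3 : f3 u = f z := by
          rw [hf3, Function.update_of_ne huw]
          rw [hout _ hcl, p4 u huy huz, hu]
        refine ⟨u, hu3, hmu.1, ?_, fun v hv h6 => ?_⟩
        · rw [hu3, ← hu]
          exact hmu.2.1
        · exact hmu.2.2 v hv ((hcls Y hYl v).1 h6)
      · refine chain_mono l' Y c1'.2 c2'.2 (fun v hv => ?_) (fun e he v => ?_)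
        · exact (hcls Y List.mem_cons_self v).2 hv
        · exact hcls e (List.mem_cons_of_mem _ he) v
    obtain ⟨f4, k1, k2, _⟩ := shift (Y :: l') (f z) f3 hp3 hch3 c2
    refine E.contra k1 c4 fun e => ?_
    have a1 := k2 e
    have a2 := hs3 e
    rw [c3] at a1
    omega

end Extr

end Pool.Agent.Helper80.KP
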