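import Pool.Agent.Helper80.KP.Struct

/-!
Equitable list colouring (MP_c0e710_co): change of the large class, swaps.
-/

open Classical

namespace Pool.Agent.Helper80.KP

open Finset Relation

variable {V C : Type} [Fintype V] [Fintype C]
variable {G : SimpleGraph V} {L : V → Finset C} {q k : ℕ} {f g : V → C} {γ : C}

/-- if the classes of `A f` are classes of `g` then `A f` is contained in `A g` -/
theorem AA_sub (h : ∀ e ∈ AA G L q f, ∀ v, g v = e ↔ f v = e) : AA G L q f ⊆ AA G L q g := by
  intro c hc
  obtain ⟨l, h', h1, h2, h3, h4, h5⟩ := exists_hole_path hc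
  refine mem_AA.2 ⟨h', ?_, ?_⟩
  · have h6 : cls g h' = cls f h' := by
      ext v
      rw [mem_cls, mem_cls]
      exact h h' (h3 ▸ h5 _ (List.getLast_mem _)) v
    unfold Hole
    rw [h6]
    exact h4
  · have h6 := chain_mono l c h1 h2 (fun v hv => (h c (h5 c List.mem_cons_self) v).2 hv)
      fun e he v => h e (h5 e (List.mem_cons_of_mem _ he)) v
    rw [← h3]
    exact chain_reach_last l c h6 c List.mem_cons_self

/-- `g` is a colouring with the same classes in `A` -/
structure Same (G : SimpleGraph V) (L : V → Finset C) (q : ℕ) (f g : V → C) : Prop where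
  eq : AA G L q g = AA G L q f
  cls : ∀ e ∈ AA G L q f, ∀ v, g v = e ↔ f v = e

theorem Same.of_mem (S : Same G L q f g) {v : V} (h : f v ∈ AA G L q f) : g v = f v :=
  (S.cls _ h v).2 rfl

theorem Same.hole (S : Same G L q f g) {e : C} (h : e ∈ AA G L q f) : Hole q g e ↔ Hole q f e := by
  have h6 : KP.cls g e = KP.cls f e := by
    ext v
    rw [mem_cls, mem_cls]
    exact S.cls e h v
  unfold Hole
  rw [h6]

theorem Same.mv (S : Same G L q f g) {z : V} {X : C} (hz : f z ∈ AA G L q f)
    (hX : X ∈ AA G L q f) : Mv G L g z X ↔ Mv G L f z X := by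
  unfold Mv
  rw [S.of_mem hz]
  refine and_congr Iff.rfl (and_congr Iff.rfl (forall_congr' fun w => imp_congr Iff.rfl ?_))
  exact not_congr (S.cls X hX w)

theorem Same.arc (S : Same G L q f g) {c X : C} (hc : c ∈ AA G L q f)
    (hX : X ∈ AA G L q f) : Arc G L g c X ↔ Arc G L f c X := by
  unfold Arc
  refine exists_congr fun v => ?_
  constructor
  · rintro ⟨h1, h2⟩
    have h3 := (S.cls c hc v).1 h1
    exact ⟨h3, (S.mv (h3 ▸ hc) hX).1 h2⟩
  · rintro ⟨h1, h2⟩
    exact ⟨(S.cls c hc v).2 h1, (S.mv (h1 ▸ hc) hX).2 h2⟩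

theorem Same.RA (S : Same G L q f g) {c X e : C} (hX : X ∈ AA G L q f) (h : RA G L q f c X e) :
    RA G L q g c X e := by
  induction h with
  | refl => exact .refl
  | @tail a b h1 h2 ih =>
    refine ih.tail ⟨(S.arc (RA_mem h1 hX) h2.2.1).2 h2.1, ?_, h2.2.2⟩
    rw [S.eq]
    exact h2.2.1

theorem Same.solo (S : Same G L q f g) {y z : V} (hz : f z ∈ AA G L q f) :
    Solo G L g y z ↔ Solo G L f y z := by
  unfold Solo
  rw [S.of_mem hz]
  refine and_congr Iff.rfl (and_congr Iff.rfl (forall_congr' fun w => imp_congr Iff.rfl ?_))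
  exact imp_congr (S.cls _ hz w) Iff.rfl

namespace Extr

variable (E : Extr G L q k f γ)
include E

/-- the large class can be moved to any class of `R` -/
theorem rebase {y : V} (hy : f y ∈ RR G L f γ) : ∃ g, Extr G L q k g (g y) ∧ Same G L q f g ∧
    g y = f y := by
  obtain ⟨l, h1, h2, h3⟩ := exists_path (mem_RR.1 hy)
  obtain ⟨g, g1, g2, g3, g4, g5⟩ := shift l γ f E.ne.1 h1 h2
  have hR : ∀ e ∈ γ :: l, e ∉ AA G L q f := fun e he =>
    E.RR_not (mem_RR.2 (chain_reach l γ h1 e he))
  have hcl : ∀ e ∈ AA G L q f, ∀ v, g v = e ↔ f v = e := by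
    intro e he v
    by_cases h4 : f v ∈ γ :: l
    · exact ⟨fun h => absurd he (h ▸ hR _ (g4 v h4)), fun h => absurd he (h ▸ hR _ h4)⟩
    · rw [g3 v h4]
  have hgy : g y = f y := g5 y h3.symm
  have hne : NE G L q g (f y) := by
    have hyA : f y ∉ AA G L q f := E.RR_not hy
    have hyq : q ≤ (cls f (f y)).card := by
      by_contra hc
      exact hyA (AA_of_hole (lt_of_not_ge hc))
    refine ⟨g1, ?_, fun c hc => ?_⟩
    · have a := g2 (f y)
      rw [h3, if_pos rfl] at a
      by_cases h4 : f y = γ
      · rw [if_pos h4] at a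
        have a2 := E.ne.2.1
        rw [← h4] at a2
        omega
      · rw [if_neg h4] at a
        have a2 := E.ne.2.2 _ h4
        omega
    · have a := g2 c
      rw [h3, if_neg hc] at a
      by_cases h4 : c = γ
      · rw [if_pos h4] at a
        have a2 := E.ne.2.1
        rw [← h4] at a2
        omega
      · rw [if_neg h4] at a
        have a2 := E.ne.2.2 _ h4
        omega
  have hAeq : AA G L q g = AA G L q f :=
    (eq_of_subset_of_card_le (AA_sub hcl) (E.max g _ hne)).symm
  refine ⟨g, ⟨hgy ▸ hne, E.noeq, fun g' δ h => ?_, E.deg, E.lst, E.tot⟩, ⟨hAeq, hcl⟩, hgy⟩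
  rw [hAeq]
  exact E.max g' δ h

theorem T2a {y z : V} {X : C} (hy : f y ∈ RR G L f γ) (hz : f z ∈ AA G L q f)
    (hs : Solo G L f y z) (hX : X ∈ AA G L q f) (hm : Mv G L f z X) :
    X ∈ UU G L q f (f z) := by
  obtain ⟨g, E', S, hg⟩ := E.rebase hy
  refine mem_UU.2 ⟨hX, hm.2.1, fun h hh hr => ?_⟩
  have hz' : g z = f z := S.of_mem hz
  have hh' : h ∈ AA G L q f := AA_of_hole hh
  refine E'.T2a_base (y := y) (z := z) (X := X) rfl ?_ ((S.solo hz).2 hs) ?_ ((S.mv hz hX).2 hm) h
    ((S.hole hh').2 hh) ?_
  · rw [S.eq, hz']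
    exact hz
  · rw [S.eq]
    exact hX
  · rw [hz']
    exact S.RA hX hr

theorem T2b {y z w : V} {X : C} (hy : f y ∈ RR G L f γ) (hz : f z ∈ AA G L q f)
    (hs : Solo G L f y z) (hX : X ∈ AA G L q f) (hm : Mv G L f z X)
    (hr : RA G L q f (f z) X (f w)) (hw : Mv G L f w (f z)) : G.Adj y w := by
  obtain ⟨g, E', S, hg⟩ := E.rebase hy
  have hz' : g z = f z := S.of_mem hz
  have hwA : f w ∈ AA G L q f := RA_mem hr hX
  have hw' : g w = f w := S.of_mem hwA
  refine E'.T2b_base (y := y) (z := z) (X := X) (w := w) rfl ?_ ((S.solo hz).2 hs) ?_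
    ((S.mv hz hX).2 hm) ?_ ?_
  · rw [S.eq, hz']
    exact hz
  · rw [S.eq]
    exact hX
  · rw [hz', hw']
    exact S.RA hX hr
  · rw [hz']
    exact (S.mv hwA hz).2 hw

end Extr

/-! ### degrees -/

/-- the neighbours of `v` in the classes of `A` -/
noncomputable def nA (G : SimpleGraph V) (L : V → Finset C) (q : ℕ) (f : V → C) (v : V) : Finset V :=
  univ.filter fun w => G.Adj v w ∧ f w ∈ AA G L q f

/-- the other neighbours of `v` -/
noncomputable def nB (G : SimpleGraph V) (L : V → Finset C) (q : ℕ) (f : V → C) (v : V) : Finset V :=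
  univ.filter fun w => G.Adj v w ∧ f w ∉ AA G L q f

/-- the colours of `A` to which `z` can be moved -/
noncomputable def TT (G : SimpleGraph V) (L : V → Finset C) (q : ℕ) (f : V → C) (z : V) : Finset C :=
  (AA G L q f).filter fun X => Mv G L f z X

theorem mem_nA {v w : V} : w ∈ nA G L q f v ↔ G.Adj v w ∧ f w ∈ AA G L q f := by simp [nA]

theorem mem_nB {v w : V} : w ∈ nB G L q f v ↔ G.Adj v w ∧ f w ∉ AA G L q f := by simp [nB]

theorem mem_TT {z : V} {X : C} : X ∈ TT G L q f z ↔ X ∈ AA G L q f ∧ Mv G L f z X := by simp [TT]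

theorem card_nA_nB (v : V) : (nA G L q f v).card + (nB G L q f v).card = G.degree v := by
  have h : G.neighborFinset v = univ.filter fun w => G.Adj v w := by
    ext w
    simp
  rw [← SimpleGraph.card_neighborFinset_eq_degree, h,
    ← card_filter_add_card_filter_not (s := univ.filter fun w => G.Adj v w)
      (fun w => f w ∈ AA G L q f), filter_filter, filter_filter]
  rfl

theorem card_nB_le (E : Extr G L q k f γ) (z : V) :
    (nB G L q f z).card + (L z ∩ AA G L q f).card ≤ k + (TT G L q f z).card := by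
  have h1 : (L z ∩ AA G L q f).card ≤ (nA G L q f z).card + 1 + (TT G L q f z).card := by
    have h2 : L z ∩ AA G L q f ⊆ ((nA G L q f z).image f ∪ {f z}) ∪ TT G L q f z := by
      intro X hX
      rw [mem_inter] at hX
      rw [mem_union, mem_union, mem_image, mem_singleton, mem_TT]
      by_cases h3 : X = f z
      · exact Or.inl (Or.inr h3)
      · by_cases h4 : Mv G L f z X
        · exact Or.inr ⟨hX.2, h4⟩
        · left
          left
          have h5 : ¬ ∀ w, G.Adj z w → f w ≠ X := fun h => h4 ⟨hX.1, h3, h⟩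
          push Not at h5
          obtain ⟨w, hw, hw2⟩ := h5
          exact ⟨w, mem_nA.2 ⟨hw, hw2 ▸ hX.2⟩, hw2⟩
    refine (card_le_card h2).trans ((card_union_le _ _).trans ?_)
    have h3 := card_union_le ((nA G L q f z).image f) {f z}
    have h4 := card_image_le (s := nA G L q f z) (f := f)
    rw [card_singleton] at h3
    omega
  have h2 := card_nA_nB (L := L) (q := q) (f := f) (G := G) z
  have h3 := E.deg z
  omega

namespace Extr

variable (E : Extr G L q k f γ)
include E

/-- the swap of `y1` and `z` -/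
theorem S2_base {y1 y2 z : V} (hy : f y1 = γ) (hz : f z ∈ AA G L q f) (h1 : Solo G L f y1 z)
    (hT : TT G L q f z = ∅) (h2 : Solo G L f y2 z) (hy2 : f y2 ∉ AA G L q f) (hne : y1 ≠ y2)
    (hb : ∀ X ∈ UU G L q f (f z), ∃ w, RA G L q f (f z) X (f w) ∧ Mv G L f w (f z) ∧
      ¬ G.Adj y1 w) : G.Adj y1 y2 := by
  by_contra hadj
  have hyz : y1 ≠ z := h1.1.ne
  have hzγ : f z ≠ γ := fun h => E.gamma (h ▸ hz)
  -- a colour of `B` for `z`
  obtain ⟨d, hdL, hdA, hd⟩ : ∃ d ∈ L z, d ∉ AA G L q f ∧ ∀ u, G.Adj z u → u ≠ y1 → f u ≠ d := by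
    have a1 := card_nB_le E z
    rw [hT, card_empty, add_zero] at a1
    have a2 : (L z \ AA G L q f).card + (L z ∩ AA G L q f).card = k := by
      rw [card_sdiff_add_card_inter, E.lst]
    have a3 : y1 ∈ nB G L q f z := mem_nB.2 ⟨h1.1.symm, hy ▸ E.gamma⟩
    have a4 : (((nB G L q f z).erase y1).image f).card < (L z \ AA G L q f).card := by
      have a5 := card_image_le (s := (nB G L q f z).erase y1) (f := f)
      have a6 := card_erase_add_one a3
      omega
    obtain ⟨d, hd1, hd2⟩ := exists_mem_notMem_of_card_lt_card a4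
    rw [mem_sdiff] at hd1
    refine ⟨d, hd1.1, hd1.2, fun u hu hne h => hd2 ?_⟩
    exact mem_image.2 ⟨u, mem_erase.2 ⟨hne, mem_nB.2 ⟨hu, h ▸ hd1.2⟩⟩, h⟩
  have hdz : d ≠ f z := fun h => hdA (h ▸ hz)
  -- the new colouring
  obtain ⟨g, hg⟩ : ∃ g : V → C, g = fun v => if v = y1 then f z else if v = z then d else f v :=
    ⟨_, rfl⟩
  have gy : g y1 = f z := by rw [hg]; simp
  have gz : g z = d := by rw [hg]; simp [hyz.symm]
  have go : ∀ v, v ≠ y1 → v ≠ z → g v = f v := by
    intro v h3 h4
    rw [hg]
    simp [h3, h4]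
  have hpg : Proper G L g := by
    have key : ∀ v w, G.Adj v w → v = y1 ∨ (v = z ∧ w ≠ y1) → g v ≠ g w := by
      intro v w hvw h
      rcases h with rfl | ⟨rfl, hw⟩
      · rw [gy]
        by_cases hw : w = z
        · rw [hw, gz]
          exact hdz.symm
        · rw [go w hvw.ne' hw]
          exact fun h => hw (h1.2.2 w hvw h.symm)
      · rw [gz, go w hw hvw.ne']
        exact (hd w hvw hw).symm
    refine ⟨fun v => ?_, fun v w hvw => ?_⟩
    · by_cases h3 : v = y1
      · rw [h3, gy]
        exact h1.2.1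
      · by_cases h4 : v = z
        · rw [h4, gz]
          exact hdL
        · rw [go v h3 h4]
          exact E.ne.1.1 v
    · by_cases h3 : v = y1
      · exact key v w hvw (Or.inl h3)
      · by_cases h4 : w = y1
        · exact (key w v hvw.symm (Or.inl h4)).symm
        · by_cases h5 : v = z
          · exact key v w hvw (Or.inr ⟨h5, h4⟩)
          · by_cases h6 : w = z
            · exact (key w v hvw.symm (Or.inr ⟨h6, h3⟩)).symm
            · rw [go v h3 h5, go w h4 h6]
              exact E.ne.1.2 v w hvw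
  -- class sizes
  have hsz : ∀ e, (cls g e).card + (if e = γ then 1 else 0) =
      (cls f e).card + (if e = d then 1 else 0) := by
    intro e
    have e1 : g = Function.update (Function.update f z d) y1 (f z) := by
      funext v
      by_cases h3 : v = y1
      · rw [h3, gy, Function.update_self]
      · rw [Function.update_of_ne h3]
        by_cases h4 : v = z
        · rw [h4, gz, Function.update_self]
        · rw [Function.update_of_ne h4, go v h3 h4]
    have a1 := card_cls_update f (v := z) (d := d) hdz e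
    have e2 : Function.update f z d y1 = γ := by rw [Function.update_of_ne hyz, hy]
    have a2 := card_cls_update (Function.update f z d) (v := y1) (d := f z) (by
      rw [e2]
      exact hzγ) e
    rw [← e1, e2] at a2
    omega
  have hdq : q ≤ (cls f d).card := by
    by_contra hc
    exact hdA (AA_of_hole (lt_of_not_ge hc))
  have hNE : NE G L q g d := by
    refine ⟨hpg, ?_, fun c hc => ?_⟩
    · have a := hsz d
      rw [if_pos rfl] at a
      by_cases h4 : d = γ
      · rw [if_pos h4] at a
        have a2 := E.ne.2.1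
        rw [← h4] at a2
        omega
      · rw [if_neg h4] at a
        have a2 := E.ne.2.2 _ h4
        omega
    · have a := hsz c
      rw [if_neg hc] at a
      by_cases h4 : c = γ
      · rw [if_pos h4] at a
        have a2 := E.ne.2.1
        rw [← h4] at a2
        omega
      · rw [if_neg h4] at a
        have a2 := E.ne.2.2 _ h4
        omega
  -- classes of `A` other than that of `z`
  have hcl : ∀ e ∈ AA G L q f, e ≠ f z → ∀ v, g v = e ↔ f v = e := by
    intro e he hez v
    by_cases h3 : v = y1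
    · rw [h3, gy, hy]
      exact ⟨fun h => absurd h.symm hez, fun h => absurd (h ▸ he) E.gamma⟩
    · by_cases h4 : v = z
      · rw [h4, gz]
        exact ⟨fun h => absurd (h ▸ he) hdA, fun h => absurd h.symm hez⟩
      · rw [go v h3 h4]
  have hholes : ∀ e ∈ AA G L q f, Hole q f e → Hole q g e := by
    intro e he hh
    have a := hsz e
    have e1 : e ≠ γ := fun h => E.gamma (h ▸ he)
    have e2 : e ≠ d := fun h => hdA (h ▸ he)
    rw [if_neg e1, if_neg e2] at a
    unfold Hole at hh ⊢
    omega
  -- the class of `z` is still in `A`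
  have hcA : f z ∈ AA G L q g := by
    obtain ⟨l, h', c1, c2, c3, c4, c5⟩ := exists_hole_path hz
    rcases l with _ | ⟨Y, l⟩
    · have : f z = h' := c3
      exact AA_of_hole (hholes _ hz (this ▸ c4))
    · have c1' := List.isChain_cons_cons.1 c1
      have c2' := List.nodup_cons.1 c2
      have hne' : ∀ e ∈ Y :: l, e ≠ f z := fun e he h => c2'.1 (h ▸ he)
      have hYl := List.mem_cons_self (a := Y) (l := l)
      have hch : List.IsChain (Arc G L g) (f z :: Y :: l) := by
        rw [List.isChain_cons_cons]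
        constructor
        · obtain ⟨u, hu, hmu⟩ := c1'.1
          have huz : u ≠ z := by
            rintro rfl
            have : Y ∈ TT G L q f u := mem_TT.2 ⟨c5 Y (List.mem_cons_of_mem _ hYl), hmu⟩
            rw [hT] at this
            simp at this
          have huy : u ≠ y1 := by
            rintro rfl
            exact hzγ (hu ▸ hy)
          have hgu : g u = f z := by rw [go u huy huz, hu]
          refine ⟨u, hgu, hmu.1, ?_, fun v hv h6 => ?_⟩
          · rw [hgu, ← hu]
            exact hmu.2.1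
          · exact hmu.2.2 v hv ((hcl Y (c5 Y (List.mem_cons_of_mem _ hYl)) (hne' Y hYl) v).1 h6)
        · refine chain_mono l Y c1'.2 c2'.2 (fun v hv => ?_) (fun e he v => ?_)
          · exact (hcl Y (c5 Y (List.mem_cons_of_mem _ hYl)) (hne' Y hYl) v).2 hv
          · exact hcl e (c5 e (List.mem_cons_of_mem _ (List.mem_cons_of_mem _ he)))
              (hne' e (List.mem_cons_of_mem _ he)) v
      refine mem_AA.2 ⟨h', hholes h' (c3 ▸ c5 _ (List.getLast_mem _)) c4, ?_⟩
      rw [← c3]
      exact chain_reach_last _ _ hch _ List.mem_cons_self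
  -- arcs avoiding the class of `z` persist
  have harc : ∀ a b, Arc G L f a b → a ∈ AA G L q f → a ≠ f z → b ∈ AA G L q f → b ≠ f z →
      Arc G L g a b := by
    intro a b h ha ha' hb' hb''
    exact h.mono (fun v hv => (hcl a ha ha' v).2 hv) (fun v hv => (hcl b hb' hb'' v).1 hv)
  have hRA : ∀ X e, X ∈ AA G L q f → X ≠ f z → RA G L q f (f z) X e →
      ReflTransGen (Arc G L g) X e := by
    intro X e hX hX' h
    induction h with
    | refl => exact .refl
    | @tail a b h3 h4 ih =>
      exact ih.tail (harc a b h4.1 (RA_mem h3 hX) (RA_ne h3 hX') h4.2.1 h4.2.2)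
  have hsub : AA G L q f ⊆ AA G L q g := by
    intro X hX
    by_cases h3 : X = f z
    · rw [h3]
      exact hcA
    · by_cases h4 : X ∈ UU G L q f (f z)
      · obtain ⟨w, w1, w2, w3⟩ := hb X h4
        have w4 := hRA X (f w) hX h3 w1
        have w5 : f w ≠ f z := RA_ne w1 h3
        have w6 : f w ∈ AA G L q f := RA_mem w1 hX
        have w7 : g w = f w := (hcl _ w6 w5 w).2 rfl
        have hwy : w ≠ y1 := by
          rintro rfl
          exact E.gamma (hy ▸ w6)
        refine AA_of_reach (w4.tail ⟨w, w7, w2.1, by rw [w7]; exact w5.symm, fun u hu h5 => ?_⟩) hcA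
        by_cases h6 : u = y1
        · exact w3 (h6 ▸ hu.symm)
        · by_cases h7 : u = z
          · rw [h7, gz] at h5
            exact hdz h5
          · rw [go u h6 h7] at h5
            exact w2.2.2 u hu h5
      · rw [mem_UU] at h4
        push Not at h4
        obtain ⟨h, hh, hr⟩ := h4 hX h3
        refine mem_AA.2 ⟨h, hholes h (AA_of_hole hh) hh, hRA X h hX h3 hr⟩
  -- the class of `y2` is new
  have hy2z : y2 ≠ z := h2.1.ne
  have gy2 : g y2 = f y2 := go y2 hne.symm hy2z
  have hnew : f y2 ∈ AA G L q g := by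
    refine AA_of_arc (d := f z) ⟨y2, gy2, h2.2.1, ?_, fun u hu h5 => ?_⟩ hcA
    · rw [gy2]
      exact fun h => hy2 (h ▸ hz)
    · by_cases h6 : u = y1
      · exact hadj (h6 ▸ hu.symm)
      · by_cases h7 : u = z
        · rw [h7, gz] at h5
          exact hdz h5
        · rw [go u h6 h7] at h5
          exact h7 (h2.2.2 u hu h5)
  have h3 := E.max g d hNE
  have h4 : (AA G L q f).card < (AA G L q g).card := by
    refine card_lt_card ⟨hsub, fun h => hy2 (h hnew)⟩
  omega

end Extr

end Pool.Agent.Helper80.KP
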